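import Mathlib

/-!
Finite sets of reals which are nearly invariant under an increasing map.
-/

set_option autoImplicit false

open Finset

namespace Pool.Agent.Hhelper97.Horo

/-- elements leaving the set -/
noncomputable def out (A : Finset ℝ) (τ : ℝ → ℝ) : Finset ℝ := {a ∈ A | τ a ∉ A}

/-- elements which are not images -/
noncomputable def new (A : Finset ℝ) (τ : ℝ → ℝ) : Finset ℝ := {a ∈ A | ∀ b ∈ A, τ b ≠ a}

/-- number of elements of `A` which are at most `x` -/
noncomputable def rk (A : Finset ℝ) (x : ℝ) : ℕ := #{a ∈ A | a ≤ x}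

theorem rk_mono (A : Finset ℝ) : Monotone (rk A) := by
  intro x y h
  apply card_le_card
  intro a ha
  simp only [mem_filter] at ha ⊢
  exact ⟨ha.1, ha.2.trans h⟩

theorem rk_le (A : Finset ℝ) (x : ℝ) : rk A x ≤ #A := card_filter_le _ _

theorem rk_lt {A : Finset ℝ} {x y : ℝ} (h : x < y) (hy : y ∈ A) : rk A x < rk A y := by
  apply card_lt_card
  rw [Finset.ssubset_iff_of_subset]
  · exact ⟨y, by simp [hy], by simp [h]⟩
  · intro a ha
    simp only [mem_filter] at ha ⊢
    exact ⟨ha.1, ha.2.trans h.le⟩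

theorem rk_count {A : Finset ℝ} {τ : ℝ → ℝ} (hτ : StrictMono τ) (x : ℝ) :
    rk A (τ x) + rk (out A τ) x = rk A x + rk (new A τ) (τ x) := by
  classical
  have h1 : rk A x = #{a ∈ A | τ a ∈ A ∧ a ≤ x} + rk (out A τ) x := by
    unfold rk out
    rw [← card_union_of_disjoint]
    · congr 1
      ext a
      simp only [mem_filter, mem_union]
      tauto
    · rw [disjoint_left]
      intro a ha hb
      simp only [mem_filter] at ha hb
      tauto
  have h2 : rk A (τ x) = #{a ∈ A | τ a ∈ A ∧ a ≤ x} + rk (new A τ) (τ x) := by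
    have h3 : #{a ∈ A | τ a ∈ A ∧ a ≤ x} = #{a ∈ A | (∃ b ∈ A, τ b = a) ∧ a ≤ τ x} := by
      rw [← card_image_of_injective _ hτ.injective]
      congr 1
      ext a
      simp only [mem_filter, mem_image]
      constructor
      · rintro ⟨b, ⟨h1, h2, h3⟩, rfl⟩
        exact ⟨h2, ⟨b, h1, rfl⟩, hτ.monotone h3⟩
      · rintro ⟨h1, ⟨b, h2, rfl⟩, h3⟩
        exact ⟨b, ⟨h2, h1, hτ.le_iff_le.1 h3⟩, rfl⟩
    rw [h3]
    unfold rk new
    rw [← card_union_of_disjoint]
    · congr 1
      ext a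
      simp only [mem_filter, mem_union]
      constructor
      · rintro ⟨h1, h2⟩
        by_cases h : ∃ b ∈ A, τ b = a
        · left; exact ⟨h1, h, h2⟩
        · right
          push Not at h
          exact ⟨⟨h1, h⟩, h2⟩
      · rintro (h | h)
        · exact ⟨h.1, h.2.2⟩
        · exact ⟨h.1.1, h.2⟩
    · rw [disjoint_left]
      intro a ha hb
      simp only [mem_filter] at ha hb
      obtain ⟨_, ⟨b, h1, h2⟩, _⟩ := ha
      exact hb.1.2 b h1 h2
  omega

theorem exists_bound (A : Finset ℝ) : ∃ x : ℝ, ∀ a ∈ A, a ≤ x := by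
  obtain ⟨x, hx⟩ := A.finite_toSet.bddAbove
  exact ⟨x, fun a ha => hx (mem_coe.2 ha)⟩

theorem rk_eq_card {A B : Finset ℝ} (hB : B ⊆ A) {x : ℝ} (hx : ∀ a ∈ A, a ≤ x) : rk B x = #B := by
  unfold rk
  congr 1
  rw [filter_eq_self]
  exact fun a ha => hx a (hB ha)

theorem out_subset (A : Finset ℝ) (τ : ℝ → ℝ) : out A τ ⊆ A := filter_subset _ _
theorem new_subset (A : Finset ℝ) (τ : ℝ → ℝ) : new A τ ⊆ A := filter_subset _ _

theorem card_new {A : Finset ℝ} {τ : ℝ → ℝ} (hτ : StrictMono τ) (h : ∀ x, x < τ x) :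
    #(new A τ) = #(out A τ) := by
  obtain ⟨x, hx⟩ := exists_bound A
  have h1 := rk_count (A := A) hτ x
  have hx' : ∀ a ∈ A, a ≤ τ x := fun a ha => (hx a ha).trans (h x).le
  rw [rk_eq_card (subset_refl A) hx', rk_eq_card (subset_refl A) hx,
    rk_eq_card (out_subset A τ) hx, rk_eq_card (new_subset A τ) hx'] at h1
  omega

/-- a translate interval contains few elements -/
theorem card_Ioc_le {A : Finset ℝ} {τ : ℝ → ℝ} (hτ : StrictMono τ) (h : ∀ x, x < τ x) (x : ℝ) :
    #{a ∈ A | x < a ∧ a ≤ τ x} ≤ #(out A τ) := by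
  have h1 := rk_count (A := A) hτ x
  have h2 : rk (new A τ) (τ x) ≤ #(out A τ) := by
    rw [← card_new hτ h]; exact rk_le _ _
  have h3 : rk A (τ x) = rk A x + #{a ∈ A | x < a ∧ a ≤ τ x} := by
    unfold rk
    rw [← card_union_of_disjoint]
    · congr 1
      ext a
      simp only [mem_filter, mem_union]
      constructor
      · rintro ⟨h1, h2⟩
        rcases le_or_gt a x with h3 | h3
        · left; exact ⟨h1, h3⟩
        · right; exact ⟨h1, h3, h2⟩
      · rintro (h4 | h4)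
        · exact ⟨h4.1, h4.2.trans (h x).le⟩
        · exact ⟨h4.1, h4.2.2⟩
    · rw [disjoint_left]
      intro a ha hb
      simp only [mem_filter] at ha hb
      linarith [ha.2, hb.2.1]
  omega

theorem exists_rk {A : Finset ℝ} {i : ℕ} (h1 : 1 ≤ i) (h2 : i ≤ #A) : ∃ a ∈ A, rk A a = i := by
  classical
  have h3 : A.image (rk A) = Icc 1 (#A) := by
    apply eq_of_subset_of_card_le
    · intro j hj
      obtain ⟨a, ha, rfl⟩ := mem_image.1 hj
      rw [mem_Icc]
      refine ⟨?_, rk_le _ _⟩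
      unfold rk
      rw [Nat.one_le_iff_ne_zero, ← Nat.pos_iff_ne_zero, card_pos]
      exact ⟨a, by simp [ha]⟩
    · rw [card_image_of_injOn]
      · simp
      · intro a ha b hb hab
        rcases lt_trichotomy a b with h | h | h
        · have := rk_lt (A := A) h (mem_coe.1 hb)
          omega
        · exact h
        · have := rk_lt (A := A) h (mem_coe.1 ha)
          omega
  have h4 : i ∈ A.image (rk A) := by rw [h3, mem_Icc]; exact ⟨h1, h2⟩
  obtain ⟨a, ha, h5⟩ := mem_image.1 h4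
  exact ⟨a, ha, h5⟩

theorem pigeon {g : ℕ → ℕ} {K : ℕ} (hK : ∀ m ≤ K, g m ≤ g (m + 1)) (h : g (K + 1) ≤ K) :
    ∃ m ≤ K, g m = g (m + 1) := by
  by_contra h0
  push Not at h0
  have h1 : ∀ m ≤ K + 1, m ≤ g m := by
    intro m
    induction m with
    | zero => intro _; exact Nat.zero_le _
    | succ m ih =>
      intro hm
      have h2 := ih (by omega)
      have h3 := hK m (by omega)
      have h4 := h0 m (by omega)
      omega
  have := h1 (K + 1) le_rfl
  omega

/-- A run of consecutive elements on which two increasing maps shift the index by constants. -/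
theorem block {A : Finset ℝ} {τ θ : ℝ → ℝ} (hτ : StrictMono τ) (hθ : StrictMono θ)
    (h1 : ∀ x, x < τ x) (h2 : ∀ x, x < θ x) {s t R : ℕ} (hs : #(out A τ) ≤ s)
    (ht : #(out A θ) ≤ t) (hR : 1 + (2 * s + 2 * t + 1) * R ≤ #A) (hR0 : 1 ≤ R) :
    ∃ (f : ℕ → ℝ) (d e : ℕ), 1 ≤ d ∧ d ≤ s ∧ 1 ≤ e ∧ e ≤ t ∧
      (∀ i < R, τ (f i) = f (i + d)) ∧ (∀ i < R, θ (f i) = f (i + e)) ∧
      (∀ i < R, ∀ j < R, f i = f j → i = j) := by
  classical
  have hex : ∀ i : ℕ, ∃ a : ℝ, 1 ≤ i → i ≤ #A → a ∈ A ∧ rk A a = i := by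
    intro i
    by_cases h : 1 ≤ i ∧ i ≤ #A
    · obtain ⟨a, ha, h3⟩ := exists_rk h.1 h.2
      exact ⟨a, fun _ _ => ⟨ha, h3⟩⟩
    · exact ⟨0, fun h3 h4 => absurd ⟨h3, h4⟩ h⟩
  choose F hF using hex
  have hFlt : ∀ i j, 1 ≤ i → j ≤ #A → i < j → F i < F j := by
    intro i j hi hj hij
    by_contra h
    push Not at h
    have h3 := rk_mono A h
    rw [(hF i hi (by omega)).2, (hF j (by omega) hj).2] at h3
    omega
  have hFu : ∀ a ∈ A, F (rk A a) = a := by
    intro a ha
    have h3 : 1 ≤ rk A a := by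
      unfold rk
      rw [Nat.one_le_iff_ne_zero, ← Nat.pos_iff_ne_zero, card_pos]
      exact ⟨a, by simp [ha]⟩
    have h4 := hF (rk A a) h3 (rk_le _ _)
    rcases lt_trichotomy (F (rk A a)) a with h | h | h
    · have := rk_lt h ha
      omega
    · exact h
    · have := rk_lt h h4.1
      omega
  -- the four counting functions
  set g1 : ℕ → ℕ := fun i => rk (out A τ) (F i) with hg1
  set g2 : ℕ → ℕ := fun i => rk (new A τ) (τ (F i)) with hg2
  set g3 : ℕ → ℕ := fun i => rk (out A θ) (F i) with hg3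
  set g4 : ℕ → ℕ := fun i => rk (new A θ) (θ (F i)) with hg4
  have m1 : ∀ i j, 1 ≤ i → j ≤ #A → i ≤ j → g1 i ≤ g1 j := by
    intro i j hi hj hij
    apply rk_mono
    rcases hij.lt_or_eq with h | h
    · exact (hFlt i j hi hj h).le
    · rw [h]
  have m2 : ∀ i j, 1 ≤ i → j ≤ #A → i ≤ j → g2 i ≤ g2 j := by
    intro i j hi hj hij
    apply rk_mono
    rcases hij.lt_or_eq with h | h
    · exact (hτ (hFlt i j hi hj h)).le
    · rw [h]
  have m3 : ∀ i j, 1 ≤ i → j ≤ #A → i ≤ j → g3 i ≤ g3 j := by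
    intro i j hi hj hij
    apply rk_mono
    rcases hij.lt_or_eq with h | h
    · exact (hFlt i j hi hj h).le
    · rw [h]
  have m4 : ∀ i j, 1 ≤ i → j ≤ #A → i ≤ j → g4 i ≤ g4 j := by
    intro i j hi hj hij
    apply rk_mono
    rcases hij.lt_or_eq with h | h
    · exact (hθ (hFlt i j hi hj h)).le
    · rw [h]
  have b1 : ∀ i, g1 i ≤ s := fun i => (rk_le _ _).trans hs
  have b2 : ∀ i, g2 i ≤ s := fun i => (rk_le _ _).trans ((card_new hτ h1).le.trans hs)
  have b3 : ∀ i, g3 i ≤ t := fun i => (rk_le _ _).trans ht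
  have b4 : ∀ i, g4 i ≤ t := fun i => (rk_le _ _).trans ((card_new hθ h2).le.trans ht)
  obtain ⟨m, hm, hgm⟩ := pigeon (g := fun m => g1 (1 + m * R) + g2 (1 + m * R) +
      g3 (1 + m * R) + g4 (1 + m * R)) (K := 2 * s + 2 * t) (by
    intro m hm
    have h3 : 1 + (m + 1) * R ≤ #A := by
      refine le_trans ?_ hR
      have : (m + 1) * R ≤ (2 * s + 2 * t + 1) * R := Nat.mul_le_mul_right _ (by omega)
      omega
    have h4 : 1 + m * R ≤ 1 + (m + 1) * R := by
      have : m * R ≤ (m + 1) * R := Nat.mul_le_mul_right _ (by omega)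
      omega
    have := m1 (1 + m * R) (1 + (m + 1) * R) (by omega) h3 h4
    have := m2 (1 + m * R) (1 + (m + 1) * R) (by omega) h3 h4
    have := m3 (1 + m * R) (1 + (m + 1) * R) (by omega) h3 h4
    have := m4 (1 + m * R) (1 + (m + 1) * R) (by omega) h3 h4
    omega) (by
    have := b1 (1 + (2 * s + 2 * t + 1) * R)
    have := b2 (1 + (2 * s + 2 * t + 1) * R)
    have := b3 (1 + (2 * s + 2 * t + 1) * R)
    have := b4 (1 + (2 * s + 2 * t + 1) * R)
    omega)
  set i0 := 1 + m * R with hi0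
  have hi1 : 1 + (m + 1) * R = i0 + R := by rw [hi0]; ring
  rw [hi1] at hgm
  have hN : i0 + R ≤ #A := by
    rw [← hi1]
    refine le_trans ?_ hR
    have : (m + 1) * R ≤ (2 * s + 2 * t + 1) * R := Nat.mul_le_mul_right _ (by omega)
    omega
  have hi0' : 1 ≤ i0 := by omega
  have hconst : ∀ i, i0 ≤ i → i ≤ i0 + R → g1 i = g1 i0 ∧ g2 i = g2 i0 ∧ g3 i = g3 i0 ∧
      g4 i = g4 i0 := by
    intro i h3 h4
    have a1 := m1 i0 i hi0' (by omega) h3
    have a2 := m2 i0 i hi0' (by omega) h3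
    have a3 := m3 i0 i hi0' (by omega) h3
    have a4 := m4 i0 i hi0' (by omega) h3
    have c1 := m1 i (i0 + R) (by omega) hN h4
    have c2 := m2 i (i0 + R) (by omega) hN h4
    have c3 := m3 i (i0 + R) (by omega) hN h4
    have c4 := m4 i (i0 + R) (by omega) hN h4
    omega
  -- a general statement for one map
  have main : ∀ (φ : ℝ → ℝ), StrictMono φ → (∀ x, x < φ x) →
      (∀ i, i0 ≤ i → i ≤ i0 + R → rk (out A φ) (F i) = rk (out A φ) (F i0) ∧
        rk (new A φ) (φ (F i)) = rk (new A φ) (φ (F i0))) →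
      ∃ d : ℕ, 1 ≤ d ∧ d ≤ #(out A φ) ∧ ∀ i, i0 < i → i ≤ i0 + R → φ (F i) = F (i + d) := by
    intro φ hφ h3 h4
    have h5 : ∀ i, i0 < i → i ≤ i0 + R → φ (F i) ∈ A := by
      intro i hi hi'
      by_contra h6
      have h7 : F i ∈ out A φ := by
        unfold out
        rw [mem_filter]
        exact ⟨(hF i (by omega) (by omega)).1, h6⟩
      have h8 := rk_lt (hFlt i0 i hi0' (by omega) hi) h7
      have h9 := (h4 i hi.le hi').1
      omega
    have h6 : ∀ i, i0 < i → i ≤ i0 + R → rk A (φ (F i)) + rk (out A φ) (F i0) =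
        i + rk (new A φ) (φ (F i0)) := by
      intro i hi hi'
      have h7 := rk_count (A := A) hφ (F i)
      rw [(h4 i hi.le hi').1, (h4 i hi.le hi').2, (hF i (by omega) (by omega)).2] at h7
      exact h7
    have h7 : i0 + 1 < rk A (φ (F (i0 + 1))) := by
      have h8 := rk_lt (A := A) (h3 (F (i0 + 1))) (h5 (i0 + 1) (by omega) (by omega))
      rwa [(hF (i0 + 1) (by omega) (by omega)).2] at h8
    have h8 := h6 (i0 + 1) (by omega) (by omega)
    have h9 : rk (new A φ) (φ (F i0)) ≤ #(out A φ) := by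
      rw [← card_new hφ h3]; exact rk_le _ _
    refine ⟨rk (new A φ) (φ (F i0)) - rk (out A φ) (F i0), by omega, by omega, ?_⟩
    intro i hi hi'
    have h10 := h6 i hi hi'
    have h11 : rk A (φ (F i)) = i + (rk (new A φ) (φ (F i0)) - rk (out A φ) (F i0)) := by omega
    rw [← h11, hFu _ (h5 i hi hi')]
  obtain ⟨d, hd1, hd2, hd3⟩ := main τ hτ h1 fun i h3 h4 => ⟨(hconst i h3 h4).1,
    (hconst i h3 h4).2.1⟩
  obtain ⟨e, he1, he2, he3⟩ := main θ hθ h2 fun i h3 h4 => ⟨(hconst i h3 h4).2.2.1,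
    (hconst i h3 h4).2.2.2⟩
  refine ⟨fun i => F (i0 + 1 + i), d, e, hd1, hd2.trans hs, he1, he2.trans ht, ?_, ?_, ?_⟩
  · intro i hi
    simp only
    rw [hd3 (i0 + 1 + i) (by omega) (by omega)]
    congr 1
    omega
  · intro i hi
    simp only
    rw [he3 (i0 + 1 + i) (by omega) (by omega)]
    congr 1
    omega
  · intro i hi j hj hij
    simp only at hij
    rcases lt_trichotomy i j with h | h | h
    · have := hFlt (i0 + 1 + i) (i0 + 1 + j) (by omega) (by omega) (by omega)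
      linarith
    · exact h
    · have := hFlt (i0 + 1 + j) (i0 + 1 + i) (by omega) (by omega) (by omega)
      linarith

end Pool.Agent.Hhelper97.Horo
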