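import Pool.Agent.Hhelper97.Horo.Comb

/-!
The combinatorics of the extremal case.
-/

set_option autoImplicit false

open Finset UpperHalfPlane

namespace Pool.Agent.Hhelper97.Horo

theorem split {S : Finset ℝ} {φ : ℝ → ℝ} {T : ℝ → Prop} [DecidablePred T]
    (hT : ∀ s, T s ↔ T (φ s)) :
    #(lights S φ) = #(lights (S.filter T) φ) + #(lights (S.filter (fun s => ¬ T s)) φ) := by
  rw [← card_filter_add_card_filter_not (s := lights S φ) T]
  congr 2
  · ext s
    simp only [mem_filter, mem_lights]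
    have := hT s
    tauto
  · ext s
    simp only [mem_filter, mem_lights]
    have := hT s
    tauto

theorem two_orbits {S : Finset ℝ} {a s₁ s₂ : ℝ} (ha : 0 < a) (h1 : s₁ ∈ S) (h2 : s₂ ∈ S)
    (hn : ∀ k : ℤ, s₂ ≠ s₁ + 2 * k * a ∧ s₂ ≠ a - s₁ + 2 * k * a) :
    4 ≤ #(lights S (fun s => a - s)) + #(lights S (fun s => -a - s)) := by
  classical
  let T : ℝ → Prop := fun s => ∃ k : ℤ, s = s₁ + 2 * k * a ∨ s = a - s₁ + 2 * k * a
  have t1 : ∀ s, T s → T (a - s) := by
    rintro s ⟨k, h | h⟩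
    · refine ⟨-k, Or.inr ?_⟩
      rw [h]; push_cast; ring
    · refine ⟨-k, Or.inl ?_⟩
      rw [h]; push_cast; ring
  have t2 : ∀ s, T s → T (-a - s) := by
    rintro s ⟨k, h | h⟩
    · refine ⟨-k - 1, Or.inr ?_⟩
      rw [h]; push_cast; ring
    · refine ⟨-k - 1, Or.inl ?_⟩
      rw [h]; push_cast; ring
  have T1 : ∀ s, T s ↔ T (a - s) := fun s => ⟨t1 s, fun h => by
    have := t1 _ h; rwa [sub_sub_cancel] at this⟩
  have T2 : ∀ s, T s ↔ T (-a - s) := fun s => ⟨t2 s, fun h => by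
    have := t2 _ h; rwa [sub_sub_cancel] at this⟩
  have e1 := split (S := S) (φ := fun s => a - s) (T := T) T1
  have e2 := split (S := S) (φ := fun s => -a - s) (T := T) T2
  have n1 : (S.filter T).Nonempty := ⟨s₁, mem_filter.2 ⟨h1, 0, Or.inl (by simp)⟩⟩
  have n2 : (S.filter (fun s => ¬ T s)).Nonempty := by
    refine ⟨s₂, mem_filter.2 ⟨h2, ?_⟩⟩
    rintro ⟨k, h | h⟩
    · exact (hn k).1 h
    · exact (hn k).2 h
  have f1 := lights_reflect_two n1 ha
  have f2 := lights_reflect_two n2 ha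
  omega

theorem odd_ne {a : ℝ} (ha : 0 < a) {r : ℤ} (hr : r % 2 = 1) (k : ℤ) :
    (r : ℝ) * a ≠ 2 * k * a := by
  intro h
  have h1 : (r : ℝ) = 2 * k := mul_right_cancel₀ ha.ne' h
  have h2 : r = 2 * k := by exact_mod_cast h1
  omega

theorem orbit_ne {a b s₁ s₂ : ℝ} (ha : 0 < a) (hb : b = 2 * a ∨ b = 4 * a)
    (h1 : s₁ = -((a + b) / 2) ∨ s₁ = (b - a) / 2)
    (h2 : s₂ = -((b - a) / 2) ∨ s₂ = (a + b) / 2) (k : ℤ) :
    s₂ ≠ s₁ + 2 * k * a ∧ s₂ ≠ a - s₁ + 2 * k * a := by
  have key : ∀ r : ℤ, r % 2 = 1 → ∀ u : ℝ, u = r * a → u ≠ 2 * k * a := by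
    intro r hr u hu
    rw [hu]; exact odd_ne ha hr k
  have fin : (∃ r : ℤ, r % 2 = 1 ∧ s₂ - s₁ = r * a) → (∃ r : ℤ, r % 2 = 1 ∧ s₂ + s₁ - a = r * a) →
      s₂ ≠ s₁ + 2 * k * a ∧ s₂ ≠ a - s₁ + 2 * k * a := by
    rintro ⟨r, hr, h3⟩ ⟨r', hr', h4⟩
    constructor
    · intro h
      exact key r hr _ h3 (by linarith)
    · intro h
      exact key r' hr' _ h4 (by linarith)
  apply fin
  · rcases hb with rfl | rfl <;> rcases h1 with rfl | rfl <;> rcases h2 with rfl | rfl
    · exact ⟨1, by norm_num, by push_cast; ring⟩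
    · exact ⟨3, by norm_num, by push_cast; ring⟩
    · exact ⟨-1, by norm_num, by push_cast; ring⟩
    · exact ⟨1, by norm_num, by push_cast; ring⟩
    · exact ⟨1, by norm_num, by push_cast; ring⟩
    · exact ⟨5, by norm_num, by push_cast; ring⟩
    · exact ⟨-3, by norm_num, by push_cast; ring⟩
    · exact ⟨1, by norm_num, by push_cast; ring⟩
  · rcases hb with rfl | rfl <;> rcases h1 with rfl | rfl <;> rcases h2 with rfl | rfl
    · exact ⟨-3, by norm_num, by push_cast; ring⟩
    · exact ⟨-1, by norm_num, by push_cast; ring⟩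
    · exact ⟨-1, by norm_num, by push_cast; ring⟩
    · exact ⟨1, by norm_num, by push_cast; ring⟩
    · exact ⟨-5, by norm_num, by push_cast; ring⟩
    · exact ⟨-1, by norm_num, by push_cast; ring⟩
    · exact ⟨-1, by norm_num, by push_cast; ring⟩
    · exact ⟨3, by norm_num, by push_cast; ring⟩

theorem chain {S : Finset ℝ} {b : ℝ} (hb : 0 < b) (hU : #(lights S (fun s => s + b)) = 1) :
    ∃ m : ℝ, ∀ s, s ∈ S ↔ ∃ i : ℕ, i < #S ∧ s = m + i * b := by
  classical
  have hU' : #(lights S (fun s => s - b)) = 1 := by rw [card_lights_sub hb, hU]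
  have hne : S.Nonempty := by
    obtain ⟨x, hx⟩ := card_pos.1 (by omega : 0 < #(lights S (fun s => s + b)))
    exact ⟨x, (mem_lights.1 hx).1⟩
  set m := S.min' hne with hm
  have hmin : m ∈ lights S (fun s => s - b) := by
    refine mem_lights.2 ⟨S.min'_mem hne, Or.inl fun h => ?_⟩
    have := S.min'_le _ h
    linarith
  have down : ∀ s ∈ S, s ≠ m → s - b ∈ S := by
    intro s hs hs'
    by_contra h
    exact hs' (card_le_one.1 hU'.le _ (mem_lights.2 ⟨hs, Or.inl h⟩) _ hmin)
  have all : ∀ n : ℕ, ∀ s ∈ S, rk S s ≤ n → ∃ i : ℕ, s = m + i * b := by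
    intro n
    induction n with
    | zero =>
      intro s hs h
      exfalso
      have : 0 < rk S s := card_pos.2 ⟨s, by simp [hs]⟩
      omega
    | succ n ih =>
      intro s hs h
      by_cases h1 : s = m
      · exact ⟨0, by rw [h1]; simp⟩
      · have h2 := down s hs h1
        have h3 : rk S (s - b) < rk S s := rk_lt (by linarith) hs
        obtain ⟨i, hi⟩ := ih (s - b) h2 (by omega)
        refine ⟨i + 1, ?_⟩
        push_cast
        linarith
  have all' : ∀ s ∈ S, ∃ i : ℕ, s = m + i * b := fun s hs => all _ s hs le_rfl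
  have closed : ∀ j i : ℕ, m + ((i + j : ℕ) : ℝ) * b ∈ S → m + (i : ℝ) * b ∈ S := by
    intro j
    induction j with
    | zero => intro i h; simpa using h
    | succ j ih =>
      intro i h
      apply ih i
      have h1 : m + ((i + (j + 1) : ℕ) : ℝ) * b ≠ m := by
        intro h2
        have h3 : ((i + (j + 1) : ℕ) : ℝ) * b = 0 := by linarith
        rcases mul_eq_zero.1 h3 with h4 | h4
        · have : i + (j + 1) = 0 := by exact_mod_cast h4
          omega
        · exact hb.ne' h4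
      have h2 := down _ h h1
      have h3 : m + ((i + (j + 1) : ℕ) : ℝ) * b - b = m + ((i + j : ℕ) : ℝ) * b := by
        push_cast; ring
      rwa [h3] at h2
  have small : ∀ j : ℕ, j < #S → m + (j : ℝ) * b ∈ S := by
    intro j hj
    by_contra h
    have h1 : S ⊆ (range j).image (fun i : ℕ => m + (i : ℝ) * b) := by
      intro s hs
      obtain ⟨i, rfl⟩ := all' s hs
      rw [mem_image]
      refine ⟨i, ?_, rfl⟩
      rw [mem_range]
      by_contra h2
      push Not at h2
      apply h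
      apply closed (i - j) j
      rwa [Nat.add_sub_cancel' h2]
    have h2 := card_le_card h1
    have h3 : #((range j).image (fun i : ℕ => m + (i : ℝ) * b)) ≤ j := by
      have := card_image_le (s := range j) (f := fun i : ℕ => m + (i : ℝ) * b)
      rwa [card_range] at this
    omega
  have inj : Function.Injective (fun i : ℕ => m + (i : ℝ) * b) := by
    intro i j h
    have h1 : (i : ℝ) * b = j * b := by simpa using h
    have h2 : (i : ℝ) = j := mul_right_cancel₀ hb.ne' h1
    exact_mod_cast h2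
  have heq : (range #S).image (fun i : ℕ => m + (i : ℝ) * b) = S := by
    apply eq_of_subset_of_card_le
    · intro s hs
      obtain ⟨i, hi, rfl⟩ := mem_image.1 hs
      exact small i (mem_range.1 hi)
    · rw [card_image_of_injective _ inj, card_range]
  refine ⟨m, fun s => ?_⟩
  constructor
  · intro hs
    rw [← heq] at hs
    obtain ⟨i, hi, rfl⟩ := mem_image.1 hs
    exact ⟨i, mem_range.1 hi, rfl⟩
  · rintro ⟨i, hi, rfl⟩
    exact small i hi

theorem centre {S : Finset ℝ} {a m : ℝ} (ha : 0 < a) (hS : 7 ≤ #S)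
    (hW : #(lights S (fun s => a - s)) + #(lights S (fun s => -a - s)) = 2)
    (hm : ∀ s, s ∈ S ↔ ∃ i : ℕ, i < #S ∧ s = m + i * (2 * a)) :
    2 * m + (#S - 1) * (2 * a) = a ∨ 2 * m + (#S - 1) * (2 * a) = -a := by
  classical
  obtain ⟨N, hN⟩ : ∃ N : ℕ, #S = N + 1 := ⟨#S - 1, by omega⟩
  -- an element which is not a light
  obtain ⟨s, hs, hs'⟩ : ∃ s ∈ S, a - s ∈ S := by
    by_contra h
    push Not at h
    have h1 : lights S (fun s => a - s) = S := by
      ext s
      rw [mem_lights]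
      exact ⟨fun h2 => h2.1, fun h2 => ⟨h2, Or.inl (h s h2)⟩⟩
    rw [h1] at hW
    omega
  obtain ⟨i, hi, h1⟩ := (hm s).1 hs
  obtain ⟨j, hj, h2⟩ := (hm (a - s)).1 hs'
  -- the sum of the extremes
  obtain ⟨r, hr⟩ : ∃ r : ℤ, r = (N : ℤ) - i - j := ⟨_, rfl⟩
  have hc : 2 * m + (#S - 1) * (2 * a) = a * (1 + 2 * r) := by
    rw [hr, hN]
    push_cast
    linarith
  have hM : m + N * (2 * a) ∈ S := (hm _).2 ⟨N, by omega, rfl⟩
  have hmS : m ∈ S := (hm _).2 ⟨0, by omega, by simp⟩
  have hM1 : m + N * (2 * a) - 2 * a ∈ S := by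
    refine (hm _).2 ⟨N - 1, by omega, ?_⟩
    rw [Nat.cast_sub (by omega)]; push_cast; ring
  have hm1 : m + 2 * a ∈ S := (hm _).2 ⟨1, by omega, by push_cast; ring⟩
  have low : ∀ x ∈ S, m ≤ x := by
    intro x hx
    obtain ⟨k, _, rfl⟩ := (hm x).1 hx
    have : (0 : ℝ) ≤ k := Nat.cast_nonneg k
    nlinarith
  have high : ∀ x ∈ S, x ≤ m + N * (2 * a) := by
    intro x hx
    obtain ⟨k, hk, rfl⟩ := (hm x).1 hx
    have : (k : ℝ) ≤ N := by exact_mod_cast (by omega : k ≤ N)
    nlinarith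
  rw [hN] at hc ⊢
  push_cast at hc ⊢
  rcases lt_trichotomy r 0 with h | h | h
  · rcases (by omega : r = -1 ∨ r ≤ -2) with h3 | h3
    · right
      rw [hc, h3]; push_cast; ring
    · exfalso
      have h4 : (r : ℝ) ≤ -2 := by exact_mod_cast h3
      have h5 : 2 * m + N * (2 * a) ≤ -3 * a := by nlinarith
      have l1 : m ∈ lights S (fun s => a - s) := mem_lights.2 ⟨hmS, Or.inl fun h6 => by
        have := high _ h6; linarith⟩
      have l2 : m + 2 * a ∈ lights S (fun s => a - s) := mem_lights.2 ⟨hm1, Or.inl fun h6 => by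
        have := high _ h6; linarith⟩
      have l3 : m ∈ lights S (fun s => -a - s) := mem_lights.2 ⟨hmS, Or.inl fun h6 => by
        have := high _ h6; linarith⟩
      have c1 : 1 < #(lights S (fun s => a - s)) := one_lt_card.2 ⟨_, l1, _, l2, by linarith⟩
      have c2 := card_pos.2 ⟨_, l3⟩
      omega
  · left
    rw [hc, h]; push_cast; ring
  · exfalso
    have h4 : (1 : ℝ) ≤ r := by exact_mod_cast h
    have h5 : 3 * a ≤ 2 * m + N * (2 * a) := by nlinarith
    have l1 : m + N * (2 * a) ∈ lights S (fun s => -a - s) := mem_lights.2 ⟨hM, Or.inl fun h6 => by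
      have := low _ h6; linarith⟩
    have l2 : m + N * (2 * a) - 2 * a ∈ lights S (fun s => -a - s) :=
      mem_lights.2 ⟨hM1, Or.inl fun h6 => by
        have := low _ h6; linarith⟩
    have l3 : m + N * (2 * a) ∈ lights S (fun s => a - s) := mem_lights.2 ⟨hM, Or.inl fun h6 => by
      have := low _ h6; linarith⟩
    have c1 : 1 < #(lights S (fun s => -a - s)) := one_lt_card.2 ⟨_, l1, _, l2, by linarith⟩
    have c2 := card_pos.2 ⟨_, l3⟩
    omega

end Pool.Agent.Hhelper97.Horo
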