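import Pool.Agent.Hhelper97.Horo.Lights

/-!
The combinatorics of a finite set of reals under two reflections and a translation.
-/

set_option autoImplicit false

open Finset UpperHalfPlane

namespace Pool.Agent.Hhelper97.Horo

theorem mem_lights {S : Finset ℝ} {φ : ℝ → ℝ} {s : ℝ} :
    s ∈ lights S φ ↔ s ∈ S ∧ (φ s ∉ S ∨ φ s = s) := by
  unfold lights; rw [mem_filter]

theorem lights_eq_of_neg {S : Finset ℝ} {a : ℝ} (ha : 0 < a) (h : ∀ s ∈ S, s < 0) :
    lights S (fun s => a - s) = S := by
  ext s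
  rw [mem_lights]
  constructor
  · exact fun h => h.1
  · intro hs
    refine ⟨hs, Or.inl fun h1 => ?_⟩
    have := h _ h1
    have := h _ hs
    linarith

theorem lights_eq_of_pos {S : Finset ℝ} {a : ℝ} (ha : 0 < a) (h : ∀ s ∈ S, 0 < s) :
    lights S (fun s => -a - s) = S := by
  ext s
  rw [mem_lights]
  constructor
  · exact fun h => h.1
  · intro hs
    refine ⟨hs, Or.inl fun h1 => ?_⟩
    have := h _ h1
    have := h _ hs
    linarith

theorem comb1 {S : Finset ℝ} {a b : ℝ} (ha : 0 < a) (hab : a < b)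
    (hU : #(lights S (fun s => s + b)) = 1)
    (hW : #(lights S (fun s => a - s)) + #(lights S (fun s => -a - s)) < #S) {s t : ℝ}
    (hs : s ∈ S) (ht : t ∉ S) (h1 : t = s + b ∨ t = s - b) (h2 : t = a - s ∨ t = -a - s) :
    False := by
  have hb : 0 < b := ha.trans hab
  have hne : S.Nonempty := ⟨s, hs⟩
  rcases h1 with h1 | h1
  · have h3 : s ∈ lights S (fun s => s + b) := mem_lights.2 ⟨hs, Or.inl (by rwa [← h1])⟩
    have h4 : S.max' hne ∈ lights S (fun s => s + b) := by
      refine mem_lights.2 ⟨S.max'_mem hne, Or.inl fun h => ?_⟩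
      have := S.le_max' _ h
      linarith
    have h5 : S.max' hne = s := card_le_one.1 hU.le _ h4 _ h3
    have h6 : s < 0 := by rcases h2 with h2 | h2 <;> linarith
    have h7 : ∀ x ∈ S, x < 0 := fun x hx => (S.le_max' x hx).trans_lt (by rw [h5]; exact h6)
    have h8 := lights_eq_of_neg ha h7
    rw [h8] at hW
    omega
  · have hU' : #(lights S (fun s => s - b)) = 1 := by rw [card_lights_sub hb, hU]
    have h3 : s ∈ lights S (fun s => s - b) := mem_lights.2 ⟨hs, Or.inl (by rwa [← h1])⟩
    have h4 : S.min' hne ∈ lights S (fun s => s - b) := by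
      refine mem_lights.2 ⟨S.min'_mem hne, Or.inl fun h => ?_⟩
      have := S.min'_le _ h
      linarith
    have h5 : S.min' hne = s := card_le_one.1 hU'.le _ h4 _ h3
    have h6 : 0 < s := by rcases h2 with h2 | h2 <;> linarith
    have h7 : ∀ x ∈ S, 0 < x := fun x hx => lt_of_lt_of_le (by rw [h5]; exact h6) (S.min'_le x hx)
    have h8 := lights_eq_of_pos ha h7
    rw [h8] at hW
    omega

theorem comb2 {S : Finset ℝ} {a b : ℝ} (ha : 0 < a) (hab : a < b)
    (hU : #(lights S (fun s => s + b)) = 1) (h1 : (b - a) / 2 ∈ S) (h2 : -((b - a) / 2) ∈ S) :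
    False := by
  have hb : 0 < b := ha.trans hab
  have h3 := card_Ioc_le (A := S) (add_strictMono b) (fun x => by linarith) (-((a + b) / 2))
  rw [← lights_add hb, hU] at h3
  have h4 := card_le_one.1 h3 ((b - a) / 2) (by
    rw [mem_filter]; exact ⟨h1, by linarith, by linarith⟩) (-((b - a) / 2)) (by
    rw [mem_filter]; exact ⟨h2, by linarith, by linarith⟩)
  linarith

theorem comb3 {S : Finset ℝ} {a b : ℝ} (ha : 0 < a) (hab : a < b) (hS : 7 ≤ #S)
    (hU : #(lights S (fun s => s + b)) = 2)
    (hW : #(lights S (fun s => a - s)) + #(lights S (fun s => -a - s)) = 2)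
    {s₁ t₁ s₂ t₂ : ℝ} (hs₁ : s₁ ∈ S) (ht₁ : t₁ ∉ S) (h1 : t₁ = s₁ + b ∨ t₁ = s₁ - b)
    (h1' : t₁ = -a - s₁) (hs₂ : s₂ ∈ S) (ht₂ : t₂ ∉ S) (h2 : t₂ = s₂ + b ∨ t₂ = s₂ - b)
    (h2' : t₂ = a - s₂) : False := by
  have hb : 0 < b := ha.trans hab
  have hne : S.Nonempty := ⟨s₁, hs₁⟩
  have w1 : s₁ ∈ lights S (fun s => -a - s) := mem_lights.2 ⟨hs₁, Or.inl (by rwa [← h1'])⟩
  have w2 : s₂ ∈ lights S (fun s => a - s) := mem_lights.2 ⟨hs₂, Or.inl (by rwa [← h2'])⟩
  have c1 := card_pos.2 ⟨_, w1⟩
  have c2 := card_pos.2 ⟨_, w2⟩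
  have d1 : #(lights S (fun s => -a - s)) ≤ 1 := by omega
  have d2 : #(lights S (fun s => a - s)) ≤ 1 := by omega
  have e1 : ∀ s ∈ S, s ≠ s₁ → -a - s ∈ S := by
    intro s hs hs'
    by_contra h
    exact hs' (card_le_one.1 d1 _ (mem_lights.2 ⟨hs, Or.inl h⟩) _ w1)
  have e2 : ∀ s ∈ S, s ≠ s₂ → a - s ∈ S := by
    intro s hs hs'
    by_contra h
    exact hs' (card_le_one.1 d2 _ (mem_lights.2 ⟨hs, Or.inl h⟩) _ w2)
  rcases lights_reflect_pos hne ha with h3 | h3
  · have h4 : S.max' hne = s₁ := card_le_one.1 d1 _ h3 _ w1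
    have hmax : ∀ s ∈ S, s ≤ s₁ := fun s hs => by rw [← h4]; exact S.le_max' s hs
    rcases h1 with h1 | h1
    · have h5 : s₁ < 0 := by linarith
      have h6 := lights_eq_of_neg ha (fun s hs => (hmax s hs).trans_lt h5)
      rw [h6] at d2
      omega
    · have h5 : s₁ = (b - a) / 2 := by linarith
      have h6 : t₁ = -((a + b) / 2) := by linarith
      have h7 : ∀ s ∈ S, t₁ < s := by
        intro s hs
        by_cases h : s = s₁
        · rw [h]; linarith
        · have h8 := hmax _ (e1 s hs h)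
          have h9 : t₁ ≤ s := by linarith
          rcases h9.lt_or_eq with h10 | h10
          · exact h10
          · exact absurd (h10 ▸ hs) ht₁
      have h8 := card_Ioc_le (A := S) (add_strictMono b) (fun x => by linarith) t₁
      rw [← lights_add hb, hU, filter_true_of_mem] at h8
      · omega
      · intro s hs
        refine ⟨h7 s hs, ?_⟩
        have := hmax s hs
        linarith
  · have h4 : S.min' hne = s₂ := card_le_one.1 d2 _ h3 _ w2
    have hmin : ∀ s ∈ S, s₂ ≤ s := fun s hs => by rw [← h4]; exact S.min'_le s hs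
    rcases h2 with h2 | h2
    · have h5 : s₂ = -((b - a) / 2) := by linarith
      have h6 : t₂ = (a + b) / 2 := by linarith
      have h7 : ∀ s ∈ S, s < t₂ := by
        intro s hs
        by_cases h : s = s₂
        · rw [h]; linarith
        · have h8 := hmin _ (e2 s hs h)
          have h9 : s ≤ t₂ := by linarith
          rcases h9.lt_or_eq with h10 | h10
          · exact h10
          · exact absurd (h10 ▸ hs) ht₂
      have h8 := card_Ioc_le (A := S) (add_strictMono b) (fun x => by linarith)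
        (S.max' hne - b)
      have h9 := h7 _ (S.max'_mem hne)
      rw [← lights_add hb, hU, filter_true_of_mem] at h8
      · omega
      · intro s hs
        have h10 := hmin s hs
        have h11 := S.le_max' s hs
        refine ⟨by linarith, ?_⟩
        linarith
    · have h5 : 0 < s₂ := by linarith
      have h6 := lights_eq_of_pos ha (fun s hs => lt_of_lt_of_le h5 (hmin s hs))
      rw [h6] at d1
      omega

end Pool.Agent.Hhelper97.Horo
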