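import Pool.Agent.Hhelper97.Horo.Lights

/-!
Counting the determined horocycles of a set with two points off the line of height one.
-/

set_option autoImplicit false

open Finset UpperHalfPlane

namespace Pool.Agent.Hhelper97.Horo

open Classical in
/-- the horocycles through two points of `A` -/
noncomputable def pairs (A : Finset ℝ) : Finset (Set ℍ) := A.offDiag.image fun p => hor p.1 p.2

theorem card_pairs (A : Finset ℝ) : (#A).choose 2 ≤ #(pairs A) := by
  classical
  have h1 : #A.offDiag ≤ 2 * #(pairs A) := by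
    unfold pairs
    apply card_le_mul_card_image
    intro K hK
    obtain ⟨⟨a, b⟩, hab, rfl⟩ := mem_image.1 hK
    have h2 : {x ∈ A.offDiag | hor x.1 x.2 = hor a b} ⊆ {(a, b), (b, a)} := by
      rintro ⟨c, d⟩ hcd
      simp only [mem_filter, mem_offDiag] at hcd
      obtain ⟨⟨_, _, hne⟩, h3⟩ := hcd
      have h4 : pt c ∈ hor a b := by rw [← h3]; exact pt_mem_hor.2 (Or.inl rfl)
      have h5 : pt d ∈ hor a b := by rw [← h3]; exact pt_mem_hor.2 (Or.inr rfl)
      rw [pt_mem_hor] at h4 h5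
      simp only [mem_insert, mem_singleton, Prod.mk.injEq]
      rcases h4 with rfl | rfl <;> rcases h5 with rfl | rfl
      · exact absurd rfl hne
      · left; exact ⟨rfl, rfl⟩
      · right; exact ⟨rfl, rfl⟩
      · exact absurd rfl hne
    exact (card_le_card h2).trans card_le_two
  rw [offDiag_card] at h1
  rw [Nat.choose_two_right]
  have h2 : #A * (#A - 1) = #A * #A - #A := by
    rw [Nat.mul_sub, mul_one]
  rw [h2]
  omega

theorem hline_notMem_pairs {A : Finset ℝ} (hA : 3 ≤ #A) : hline 1 ∉ pairs A := by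
  classical
  intro h
  obtain ⟨⟨a, b⟩, _, h1⟩ := mem_image.1 h
  exact hor_ne_hline hA a b h1

theorem ncard_ge {P : Finset ℍ} {G : Finset (Set ℍ)} (hG : ∀ K ∈ G, K ∈ determined P) :
    #G ≤ h P := by
  unfold h
  rw [← Set.ncard_coe_finset]
  exact Set.ncard_le_ncard hG (determined_finite P)

/-- all points on the line -/
theorem count_line {A : Finset ℝ} (hA : 3 ≤ #A) {P : Finset ℍ} (hP : ∀ a ∈ A, pt a ∈ P) :
    (#A).choose 2 + 1 ≤ h P := by
  classical
  have h1 : #(insert (hline 1) (pairs A)) = #(pairs A) + 1 :=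
    card_insert_of_notMem (hline_notMem_pairs hA)
  have h2 := card_pairs A
  have h3 : #(insert (hline 1) (pairs A)) ≤ h P := by
    apply ncard_ge
    intro K hK
    rcases mem_insert.1 hK with rfl | hK
    · obtain ⟨a, ha, b, hb, hab⟩ := one_lt_card.1 (by omega : 1 < #A)
      exact ⟨isHorocycle_hline one_pos, pt a, hP a ha, pt b, hP b hb,
        fun h => hab (pt_injective h), pt_mem_hline a, pt_mem_hline b⟩
    · obtain ⟨⟨a, b⟩, hab, rfl⟩ := mem_image.1 hK
      rw [mem_offDiag] at hab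
      exact ⟨isHorocycle_hor a b, pt a, hP a hab.1, pt b, hP b hab.2.1,
        fun h => hab.2.2 (pt_injective h), pt_mem_hor.2 (Or.inl rfl), pt_mem_hor.2 (Or.inr rfl)⟩
  omega

theorem count_two {A : Finset ℝ} (hA : 3 ≤ #A) {p q : ℍ} (hp : p.im ≠ 1) (hq : q.im ≠ 1)
    (hpq : p ≠ q) {M₁ M₀ : Finset (Set ℍ)}
    (h1 : ∀ K ∈ M₁, IsHorocycle K ∧ (p ∈ K ∨ q ∈ K) ∧ ∃ a ∈ A, pt a ∈ K ∧
      ∀ c ∈ A, pt c ∈ K → c = a)
    (h0 : ∀ K ∈ M₀, IsHorocycle K ∧ p ∈ K ∧ q ∈ K ∧ ∀ c ∈ A, pt c ∉ K)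
    {P : Finset ℍ} (hpP : p ∈ P) (hqP : q ∈ P) (hP : ∀ a ∈ A, pt a ∈ P) :
    (#A).choose 2 + 1 + #M₁ + #M₀ ≤ h P := by
  classical
  have hp1 : p ∉ hline 1 := fun h => hp h
  have hq1 : q ∉ hline 1 := fun h => hq h
  have d1 : Disjoint (insert (hline 1) (pairs A)) M₁ := by
    rw [disjoint_left]
    intro K hK hK1
    obtain ⟨_, h2, a, ha, h3, h4⟩ := h1 K hK1
    rcases mem_insert.1 hK with rfl | hK
    · rcases h2 with h2 | h2
      · exact hp1 h2
      · exact hq1 h2
    · obtain ⟨⟨b, c⟩, hbc, rfl⟩ := mem_image.1 hK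
      rw [mem_offDiag] at hbc
      have h5 := h4 b hbc.1 (pt_mem_hor.2 (Or.inl rfl))
      have h6 := h4 c hbc.2.1 (pt_mem_hor.2 (Or.inr rfl))
      exact hbc.2.2 (h5.trans h6.symm)
  have d2 : Disjoint (insert (hline 1) (pairs A) ∪ M₁) M₀ := by
    rw [disjoint_left]
    intro K hK hK0
    obtain ⟨_, h2, h2', h3⟩ := h0 K hK0
    rcases mem_union.1 hK with hK | hK
    · rcases mem_insert.1 hK with rfl | hK
      · exact hp1 h2
      · obtain ⟨⟨b, c⟩, hbc, rfl⟩ := mem_image.1 hK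
        rw [mem_offDiag] at hbc
        exact h3 b hbc.1 (pt_mem_hor.2 (Or.inl rfl))
    · obtain ⟨_, _, a, ha, h4, _⟩ := h1 K hK
      exact h3 a ha h4
  have h2 : #(insert (hline 1) (pairs A) ∪ M₁ ∪ M₀) = #(pairs A) + 1 + #M₁ + #M₀ := by
    rw [card_union_of_disjoint d2, card_union_of_disjoint d1,
      card_insert_of_notMem (hline_notMem_pairs hA)]
  have h3 := card_pairs A
  have h4 : #(insert (hline 1) (pairs A) ∪ M₁ ∪ M₀) ≤ h P := by
    apply ncard_ge
    intro K hK
    rcases mem_union.1 hK with hK | hK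
    · rcases mem_union.1 hK with hK | hK
      · rcases mem_insert.1 hK with rfl | hK
        · obtain ⟨a, ha, b, hb, hab⟩ := one_lt_card.1 (by omega : 1 < #A)
          exact ⟨isHorocycle_hline one_pos, pt a, hP a ha, pt b, hP b hb,
            fun h => hab (pt_injective h), pt_mem_hline a, pt_mem_hline b⟩
        · obtain ⟨⟨a, b⟩, hab, rfl⟩ := mem_image.1 hK
          rw [mem_offDiag] at hab
          exact ⟨isHorocycle_hor a b, pt a, hP a hab.1, pt b, hP b hab.2.1,
            fun h => hab.2.2 (pt_injective h), pt_mem_hor.2 (Or.inl rfl),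
            pt_mem_hor.2 (Or.inr rfl)⟩
      · obtain ⟨h5, h6, a, ha, h7, _⟩ := h1 K hK
        rcases h6 with h6 | h6
        · exact ⟨h5, p, hpP, pt a, hP a ha, fun h => hp (by rw [h]; rfl), h6, h7⟩
        · exact ⟨h5, q, hqP, pt a, hP a ha, fun h => hq (by rw [h]; rfl), h6, h7⟩
    · obtain ⟨h5, h6, h7, _⟩ := h0 K hK
      exact ⟨h5, p, hpP, q, hqP, hpq, h6, h7⟩
  omega

/-- at most two circles through two points -/
theorem circ_two {p q : ℍ} (hpq : p ≠ q) {M : Finset (Set ℍ)}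
    (hM : ∀ K ∈ M, p ∈ K ∧ q ∈ K ∧ ∃ x r, K = circ x r) : #M ≤ 2 := by
  classical
  by_contra h
  push Not at h
  obtain ⟨K₁, h1, K₂, h2, K₃, h3, h12, h13, h23⟩ := two_lt_card.1 h
  obtain ⟨p1, q1, x1, r1, rfl⟩ := hM _ h1
  obtain ⟨p2, q2, x2, r2, rfl⟩ := hM _ h2
  obtain ⟨p3, q3, x3, r3, rfl⟩ := hM _ h3
  rw [mem_circ] at p1 p2 p3 q1 q2 q3
  have hp0 := p.im_pos
  have key : ∀ x r y s, (p.re - x) ^ 2 + p.im ^ 2 = 2 * r * p.im →
      (p.re - y) ^ 2 + p.im ^ 2 = 2 * s * p.im → circ x r ≠ circ y s → x ≠ y := by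
    intro x r y s hx hy hne hxy
    subst hxy
    apply hne
    have h4 : (r - s) * p.im = 0 := by linear_combination (-1 / 2) * hx + (1 / 2) * hy
    have h5 : r = s := by
      rcases mul_eq_zero.1 h4 with h5 | h5
      · linarith
      · exact absurd h5 hp0.ne'
    rw [h5]
  have n12 := key _ _ _ _ p1 p2 h12
  have n13 := key _ _ _ _ p1 p3 h13
  have n23 := key _ _ _ _ p2 p3 h23
  -- the quadratic
  set α := q.im - p.im with hα
  set β := -2 * (q.im * p.re - p.im * q.re) with hβ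
  have e : ∀ x r, (p.re - x) ^ 2 + p.im ^ 2 = 2 * r * p.im →
      (q.re - x) ^ 2 + q.im ^ 2 = 2 * r * q.im → α * x ^ 2 + β * x +
      (q.im * (p.re ^ 2 + p.im ^ 2) - p.im * (q.re ^ 2 + q.im ^ 2)) = 0 := by
    intro x r h5 h6
    rw [hα, hβ]
    linear_combination q.im * h5 - p.im * h6
  have e1 := e _ _ p1 q1
  have e2 := e _ _ p2 q2
  have e3 := e _ _ p3 q3
  have f12 : α * (x1 + x2) + β = 0 := by
    have : (x1 - x2) * (α * (x1 + x2) + β) = 0 := by linear_combination e1 - e2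
    exact (mul_eq_zero.1 this).resolve_left (sub_ne_zero.2 n12)
  have f13 : α * (x1 + x3) + β = 0 := by
    have : (x1 - x3) * (α * (x1 + x3) + β) = 0 := by linear_combination e1 - e3
    exact (mul_eq_zero.1 this).resolve_left (sub_ne_zero.2 n13)
  have hα0 : α = 0 := by
    have : (x2 - x3) * α = 0 := by linear_combination f12 - f13
    exact (mul_eq_zero.1 this).resolve_left (sub_ne_zero.2 n23)
  have hβ0 : β = 0 := by rw [hα0] at f12; linarith
  apply hpq
  have him : q.im = p.im := by linarith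
  apply UpperHalfPlane.ext
  apply Complex.ext
  · have h2 : p.im * (p.re - q.re) = 0 := by rw [hβ, him] at hβ0; linarith
    have h3 : p.re - q.re = 0 := (mul_eq_zero.1 h2).resolve_left p.im_pos.ne'
    exact sub_eq_zero.1 h3
  · exact him.symm

end Pool.Agent.Hhelper97.Horo
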