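import Mathlib

/-!
# Horocycles determined by finite sets of points, and the golden chain
The definitions of `MP_d7f0d3_co.GoldenChain` (by helper19).
-/

namespace Pool.Agent.Hhelper97.Horo

open Finset UpperHalfPlane

/-- The horocycle of the upper half-plane centred at the real point `x`, of euclidean radius `r`:
the euclidean circle of radius `r` tangent to the real line at `x`. -/
def circ (x r : ℝ) : Set ℍ := {z | (z.re - x) ^ 2 + (z.im - r) ^ 2 = r ^ 2}

/-- The horocycle centred at infinity at height `c`. -/
def hline (c : ℝ) : Set ℍ := {z | z.im = c}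

/-- The horocycles of the hyperbolic plane, in the upper half-plane model. -/
def IsHorocycle (H : Set ℍ) : Prop :=
  (∃ c : ℝ, 0 < c ∧ H = hline c) ∨ (∃ x r : ℝ, 0 < r ∧ H = circ x r)

/-- The horocycles containing at least two points of `P`. -/
def determined (P : Finset ℍ) : Set (Set ℍ) :=
  {H | IsHorocycle H ∧ ∃ p ∈ P, ∃ q ∈ P, p ≠ q ∧ p ∈ H ∧ q ∈ H}

/-- The number of horocycles determined by `P`. -/
noncomputable def h (P : Finset ℍ) : ℕ := (determined P).ncard

/-- The Lucas numbers of odd index with alternating signs, times `2 / 5`: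
`2/5, -8/5, 22/5, -58/5, ...`. -/
noncomputable def X : ℕ → ℝ
  | 0 => 2 / 5
  | 1 => -8 / 5
  | (k + 2) => -3 * X (k + 1) - X k

/-- The point `(x, 1)`. -/
noncomputable def pt (x : ℝ) : ℍ := ⟨⟨x, 1⟩, by simp⟩

/-- The point `(0, 1/5)`. -/
noncomputable def q₁ : ℍ := ⟨⟨0, 1 / 5⟩, by norm_num⟩
/-- The point `(0, 9/5)`. -/
noncomputable def q₂ : ℍ := ⟨⟨0, 9 / 5⟩, by norm_num⟩

open Classical in
/-- The golden chain: `k` points on the horocycle of height one, and two further points. -/
noncomputable def golden (k : ℕ) : Finset ℍ :=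
  insert q₁ (insert q₂ ((range k).image fun i => pt (X i)))

end Pool.Agent.Hhelper97.Horo
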