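import Pool.Agent.Hhelper97.Horo.Mixed
import Pool.Agent.Hhelper97.Horo.Chain

/-!
The extremal case with two points off the line.
-/

set_option autoImplicit false

open Finset UpperHalfPlane

namespace Pool.Agent.Hhelper97.Horo

theorem mixed_eq {p q : ℍ} (hp : p.im < 1) (hq : 1 < q.im) (hκ : |p.im - 1| = |q.im - 1|)
    (hx : p.re = q.re) {A : Finset ℝ} (hA : 261 ≤ #A)
    (h6 : #(LB p A) + #(LA q A) ≤ 6)
    (h5 : ∀ M₀ : Finset (Set ℍ), (∀ K ∈ M₀, IsHorocycle K ∧ p ∈ K ∧ q ∈ K ∧ ∀ c ∈ A, pt c ∉ K) →
      #(LB p A ∪ LA q A) + #M₀ ≤ 5) :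
    #(lights (coords p A) (fun s => s + len q.im)) = 1 ∧
    #(lights (coords p A) (fun s => len p.im - s)) +
      #(lights (coords p A) (fun s => -len p.im - s)) = 2 ∧ len q.im = 2 * len p.im := by
  classical
  have hAne : A.Nonempty := card_pos.1 (by omega)
  have ha := (len_spec p.im_pos hp.ne).1
  have hb := (len_spec q.im_pos hq.ne').1
  have hab := len_lt hp hq hκ
  have hS : #(coords p A) = #A := card_coords hp.ne A
  have cA := card_LA hq A
  rw [coords_eq hκ hx] at cA
  have cB := card_LB hp A
  have gA := good_above hq hAne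
  have gB := good_below hp hAne
  obtain ⟨kB, hkB⟩ := gB.1
  have hB2 := gB.2.1
  have hA2 := gA.2.1
  have hcu := card_union_add_card_inter (LB p A) (LA q A)
  have h50 := h5 ∅ (by simp)
  rw [card_empty] at h50
  -- the relation between the two lengths
  have o1 : #(out A (shift p.re |p.im - 1| (2 * len p.im))) ≤ #(LB p A) := by
    have h3 := out_shift_le (A := A) (x := p.re) (l := 2 * len p.im) (abs_pos' hp.ne)
    rw [show A.image (crd p.re |p.im - 1|) = coords p A from rfl] at h3
    have h5 := out_two_le (coords p A) (len p.im)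
    omega
  have o2 : #(out A (shift q.re |q.im - 1| (len q.im))) ≤
      #(lights (coords p A) (fun s => s + len q.im)) := by
    have h3 := out_shift_le (A := A) (x := q.re) (l := len q.im) (abs_pos' hq.ne')
    rw [show A.image (crd q.re |q.im - 1|) = coords q A from rfl, coords_eq hκ hx,
      ← lights_add hb] at h3
    exact h3
  obtain ⟨_, _, d, e, hd1, hd2, he1, he2, hde⟩ := rigid (abs_pos' hp.ne) (abs_pos' hq.ne')
    (by linarith) hb o1 o2 (by omega) hA
  by_cases hU : #(lights (coords p A) (fun s => s + len q.im)) = 1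
  · have hW : #(LB p A) < #A := by omega
    rw [inter_empty hp hq hκ hx hAne hU hW, card_empty, add_zero] at hcu
    refine ⟨hU, by omega, ?_⟩
    have he : e = 1 := by omega
    have hd : d ≤ 2 := by omega
    subst he
    interval_cases d
    · push_cast at hde; linarith
    · push_cast at hde; linarith
  · exfalso
    have hB : #(LB p A) = 2 := by omega
    have hint := inter_le_one hp hq hκ hx (by omega) (by omega) hB
    have hd : d ≤ 2 := by omega
    have he : e ≤ 2 := by omega
    have hrel : len q.im = 2 * len p.im ∨ len q.im = 4 * len p.im := by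
      interval_cases d <;> interval_cases e <;> push_cast at hde
      · left; linarith
      · right; linarith
      · exfalso; linarith
      · left; linarith
    have hM : ∃ M₀ : Finset (Set ℍ), (∀ K ∈ M₀, IsHorocycle K ∧ p ∈ K ∧ q ∈ K ∧
        ∀ c ∈ A, pt c ∉ K) ∧ #M₀ = 1 := by
      by_contra hno
      set a := len p.im with hadef
      set b := len q.im with hbdef
      set S := coords p A with hSdef
      have v1 : -((a + b) / 2) ∈ S ∨ (b - a) / 2 ∈ S := by
        by_contra h3
        push Not at h3
        exact hno (exists_free hp hq hκ hx h3.1 h3.2 (by left; ring) (by right; ring))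
      have v2 : -((b - a) / 2) ∈ S ∨ (a + b) / 2 ∈ S := by
        by_contra h3
        push Not at h3
        exact hno (exists_free hp hq hκ hx h3.1 h3.2 (by left; ring) (by left; ring))
      have h4 : 4 ≤ #(lights S (fun s => a - s)) + #(lights S (fun s => -a - s)) := by
        rcases v1 with v1 | v1 <;> rcases v2 with v2 | v2
        · exact two_orbits ha v1 v2 (orbit_ne ha hrel (Or.inl rfl) (Or.inl rfl))
        · exact two_orbits ha v1 v2 (orbit_ne ha hrel (Or.inl rfl) (Or.inr rfl))
        · exact two_orbits ha v1 v2 (orbit_ne ha hrel (Or.inr rfl) (Or.inl rfl))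
        · exact two_orbits ha v1 v2 (orbit_ne ha hrel (Or.inr rfl) (Or.inr rfl))
      omega
    obtain ⟨M₀, h1, h2⟩ := hM
    have := h5 M₀ h1
    omega

/-- the golden ratio appears -/
theorem golden_len {p q : ℍ} (hp : p.im < 1) (hq : 1 < q.im) (hκ : |p.im - 1| = |q.im - 1|)
    (h2 : len q.im = 2 * len p.im) : Real.cosh (len p.im) = 3 / 2 ∧ p.im = 1 / 5 ∧
      q.im = 9 / 5 := by
  obtain ⟨a1, a2, _⟩ := len_spec p.im_pos hp.ne
  obtain ⟨b1, b2, _⟩ := len_spec q.im_pos hq.ne'
  rw [abs_of_neg (by linarith), abs_of_pos (by linarith)] at hκ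
  rw [abs_of_neg (by linarith)] at a2
  rw [abs_of_pos (by linarith), h2, Real.cosh_two_mul, Real.sinh_sq] at b2
  have hc : 1 < Real.cosh (len p.im) := Real.one_lt_cosh.2 a1.ne'
  set c := Real.cosh (len p.im) with hcdef
  have hp0 := p.im_pos
  have hk : 0 < 1 - p.im := by linarith
  have hqp : q.im = 2 - p.im := by linarith
  rw [hqp] at b2
  have h3 : (1 - p.im) * ((2 * c - 3) * (c + 1)) = 0 := by linear_combination b2 - a2
  have h4 : (2 * c - 3) * (c + 1) = 0 := (mul_eq_zero.1 h3).resolve_left hk.ne'
  have h5 : c = 3 / 2 := by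
    rcases mul_eq_zero.1 h4 with h | h
    · linarith
    · linarith
  rw [h5] at a2
  refine ⟨h5, by linarith, by linarith⟩

end Pool.Agent.Hhelper97.Horo
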