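import Pool.Agent.Hhelper97.Horo.Golden

/-!
Horocycles through two points of the line of height one, in hyperbolic coordinates.
-/

set_option autoImplicit false

open Finset UpperHalfPlane

namespace Pool.Agent.Hhelper97.Horo

theorem isHorocycle_hor (a b : ℝ) : IsHorocycle (hor a b) :=
  Or.inr ⟨_, _, by positivity, rfl⟩

theorem isHorocycle_hline {c : ℝ} (hc : 0 < c) : IsHorocycle (hline c) := Or.inl ⟨c, hc, rfl⟩

theorem mem_hline {z : ℍ} {c : ℝ} : z ∈ hline c ↔ z.im = c := Iff.rfl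

theorem pt_mem_hline (a : ℝ) : pt a ∈ hline 1 := rfl

theorem pt_injective : Function.Injective pt := by
  intro a b h
  have := congrArg UpperHalfPlane.re h
  simpa using this

theorem pt_mem_hor {a b c : ℝ} : pt c ∈ hor a b ↔ c = a ∨ c = b := by
  rw [hor, mem_circ]
  simp only [pt_re, pt_im]
  constructor
  · intro h
    have h1 : (c - a) * (c - b) = 0 := by linear_combination h
    rcases mul_eq_zero.1 h1 with h2 | h2
    · left; linarith
    · right; linarith
  · rintro (rfl | rfl) <;> ring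

theorem mem_hor {R : ℍ} {a b : ℝ} : R ∈ hor a b ↔
    (1 - R.im) * ((a - R.re) ^ 2 + (b - R.re) ^ 2) + 2 * (1 + R.im) * ((a - R.re) * (b - R.re)) =
      4 * R.im * (1 - R.im) := by
  rw [hor, mem_circ]
  constructor <;> intro h
  · linear_combination 4 * h
  · linear_combination (1 / 4) * h

theorem hor_ne_hline {A : Finset ℝ} (hA : 3 ≤ #A) (a b : ℝ) : hor a b ≠ hline 1 := by
  intro h
  have h1 : ∃ c ∈ A, c ∉ ({a, b} : Finset ℝ) := by
    by_contra h2
    push Not at h2
    have h3 : #A ≤ #({a, b} : Finset ℝ) := card_le_card h2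
    have h4 : #({a, b} : Finset ℝ) ≤ 2 := card_le_two
    omega
  obtain ⟨c, _, hc⟩ := h1
  have h2 : pt c ∈ hor a b := by rw [h]; exact pt_mem_hline c
  rw [pt_mem_hor] at h2
  simp at hc
  tauto

/-- the coordinate on the line of height one -/
noncomputable def E (x κ s : ℝ) : ℝ := x + κ * Real.sinh s

/-- the inverse coordinate -/
noncomputable def crd (x κ a : ℝ) : ℝ := Real.arsinh ((a - x) / κ)

theorem E_crd {x κ : ℝ} (hκ : 0 < κ) (a : ℝ) : E x κ (crd x κ a) = a := by
  unfold E crd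
  rw [Real.sinh_arsinh]
  field_simp
  ring

theorem crd_E {x κ : ℝ} (hκ : 0 < κ) (s : ℝ) : crd x κ (E x κ s) = s := by
  unfold E crd
  have : (x + κ * Real.sinh s - x) / κ = Real.sinh s := by field_simp; ring
  rw [this, Real.arsinh_sinh]

theorem E_strictMono {x κ : ℝ} (hκ : 0 < κ) : StrictMono (E x κ) := by
  intro s t h
  unfold E
  have := Real.sinh_strictMono h
  nlinarith

theorem E_injective {x κ : ℝ} (hκ : 0 < κ) : Function.Injective (E x κ) :=
  (E_strictMono hκ).injective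

theorem crd_injective {x κ : ℝ} (hκ : 0 < κ) : Function.Injective (crd x κ) := by
  intro a b h
  rw [← E_crd hκ a, h, E_crd hκ b]

/-- the translation length of a point of height `y` -/
noncomputable def len (y : ℝ) : ℝ := Real.arsinh (2 * Real.sqrt y / |y - 1|)

theorem len_spec {y : ℝ} (hy : 0 < y) (h1 : y ≠ 1) : 0 < len y ∧
    |y - 1| * Real.cosh (len y) = 1 + y ∧ |y - 1| ^ 2 * Real.sinh (len y) ^ 2 = 4 * y := by
  have hk : 0 < |y - 1| := abs_pos.2 (sub_ne_zero.2 h1)
  unfold len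
  refine ⟨?_, ?_, ?_⟩
  · rw [Real.arsinh_pos_iff]
    positivity
  · rw [Real.cosh_arsinh]
    have h2 : 1 + (2 * Real.sqrt y / |y - 1|) ^ 2 = ((1 + y) / |y - 1|) ^ 2 := by
      rw [div_pow, div_pow, mul_pow, Real.sq_sqrt hy.le]
      field_simp
      rw [sq_abs]
      ring
    rw [h2, Real.sqrt_sq (by positivity)]
    field_simp
  · rw [Real.sinh_arsinh, div_pow, mul_pow, Real.sq_sqrt hy.le]
    field_simp
    ring

theorem above_iff {R : ℍ} (hR : 1 < R.im) {κ l : ℝ} (hκ : κ = R.im - 1)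
    (h1 : κ * Real.cosh l = 1 + R.im) (h2 : κ ^ 2 * Real.sinh l ^ 2 = 4 * R.im) (s t : ℝ) :
    R ∈ hor (E R.re κ s) (E R.re κ t) ↔ (t = s + l ∨ t = s - l) := by
  have hk : 0 < κ := by rw [hκ]; linarith
  have key : R ∈ hor (E R.re κ s) (E R.re κ t) ↔
      (Real.sinh t - Real.sinh (s + l)) * (Real.sinh t - Real.sinh (s - l)) = 0 := by
    rw [mem_hor, Real.sinh_add, Real.sinh_sub]
    have h3 : Real.cosh s ^ 2 = Real.sinh s ^ 2 + 1 := Real.cosh_sq s
    have h4 : Real.cosh l ^ 2 = Real.sinh l ^ 2 + 1 := Real.cosh_sq l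
    have e1 : (1 - R.im) = -κ := by rw [hκ]; ring
    have e2 : (E R.re κ s - R.re) = κ * Real.sinh s := by unfold E; ring
    have e3 : (E R.re κ t - R.re) = κ * Real.sinh t := by unfold E; ring
    rw [e1, e2, e3, ← h1, ← h2]
    have hk3 : κ ^ 3 ≠ 0 := by positivity
    constructor
    · intro h
      apply (mul_right_inj' hk3).1
      rw [mul_zero]
      linear_combination -h - κ ^ 3 * Real.sinh l ^ 2 * h3 + κ ^ 3 * Real.sinh s ^ 2 * h4
    · intro h
      linear_combination -κ ^ 3 * h - κ ^ 3 * Real.sinh l ^ 2 * h3 + κ ^ 3 * Real.sinh s ^ 2 * h4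
  rw [key, mul_eq_zero, sub_eq_zero, sub_eq_zero, Real.sinh_inj, Real.sinh_inj]

theorem below_iff {R : ℍ} (hR : R.im < 1) {κ l : ℝ} (hκ : κ = 1 - R.im)
    (h1 : κ * Real.cosh l = 1 + R.im) (h2 : κ ^ 2 * Real.sinh l ^ 2 = 4 * R.im) (s t : ℝ) :
    R ∈ hor (E R.re κ s) (E R.re κ t) ↔ (t = l - s ∨ t = -l - s) := by
  have hk : 0 < κ := by rw [hκ]; linarith
  have key : R ∈ hor (E R.re κ s) (E R.re κ t) ↔
      (Real.sinh t - Real.sinh (l - s)) * (Real.sinh t - Real.sinh (-l - s)) = 0 := by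
    rw [mem_hor, Real.sinh_sub, Real.sinh_sub, Real.sinh_neg, Real.cosh_neg]
    have h3 : Real.cosh s ^ 2 = Real.sinh s ^ 2 + 1 := Real.cosh_sq s
    have h4 : Real.cosh l ^ 2 = Real.sinh l ^ 2 + 1 := Real.cosh_sq l
    have e1 : (1 - R.im) = κ := by rw [hκ]
    have e2 : (E R.re κ s - R.re) = κ * Real.sinh s := by unfold E; ring
    have e3 : (E R.re κ t - R.re) = κ * Real.sinh t := by unfold E; ring
    rw [e1, e2, e3, ← h1, ← h2]
    have hk3 : κ ^ 3 ≠ 0 := by positivity
    constructor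
    · intro h
      apply (mul_right_inj' hk3).1
      rw [mul_zero]
      linear_combination h - κ ^ 3 * Real.sinh l ^ 2 * h3 + κ ^ 3 * Real.sinh s ^ 2 * h4
    · intro h
      linear_combination κ ^ 3 * h + κ ^ 3 * Real.sinh l ^ 2 * h3 - κ ^ 3 * Real.sinh s ^ 2 * h4
  rw [key, mul_eq_zero, sub_eq_zero, sub_eq_zero, Real.sinh_inj, Real.sinh_inj]

end Pool.Agent.Hhelper97.Horo
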