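import Pool.Agent.Hhelper97.Horo.Golden

/-!
Every horocycle can be moved to the line of height one.
-/

set_option autoImplicit false

open Finset UpperHalfPlane

namespace Pool.Agent.Hhelper97.Horo

/-- a point of the upper half-plane from its coordinates -/
def mkP (a b : ℝ) (hb : 0 < b) : ℍ := ⟨⟨a, b⟩, hb⟩

@[simp] theorem mkP_re (a b : ℝ) (hb : 0 < b) : (mkP a b hb).re = a := rfl
@[simp] theorem mkP_im (a b : ℝ) (hb : 0 < b) : (mkP a b hb).im = b := rfl

theorem ext' {z w : ℍ} (h1 : z.re = w.re) (h2 : z.im = w.im) : z = w :=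
  UpperHalfPlane.ext (Complex.ext h1 h2)

theorem h_image_le {φ : ℍ → ℍ} (hφ : Function.Surjective φ)
    (hpre : ∀ K, IsHorocycle K → IsHorocycle (φ ⁻¹' K)) [DecidableEq ℍ] (P : Finset ℍ) :
    h (P.image φ) ≤ h P := by
  unfold h
  refine Set.ncard_le_ncard_of_injOn (fun K => φ ⁻¹' K) ?_ ?_ (determined_finite P)
  · rintro K ⟨hK, p, hp, q, hq, hpq, hpK, hqK⟩
    obtain ⟨p', hp', rfl⟩ := mem_image.1 hp
    obtain ⟨q', hq', rfl⟩ := mem_image.1 hq
    exact ⟨hpre K hK, p', hp', q', hq', fun h => hpq (by rw [h]), hpK, hqK⟩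
  · intro K _ K' _ h
    exact hφ.preimage_injective h

/-- `z` divided by `c` -/
noncomputable def scale (c : ℝ) (hc : 0 < c) (z : ℍ) : ℍ :=
  mkP (z.re / c) (z.im / c) (div_pos z.im_pos hc)

theorem scale_inv (c : ℝ) (hc : 0 < c) (z : ℍ) : scale c⁻¹ (inv_pos.2 hc) (scale c hc z) = z := by
  apply ext'
  · simp only [scale, mkP_re]; field_simp
  · simp only [scale, mkP_im]; field_simp

theorem scale_bij (c : ℝ) (hc : 0 < c) : Function.Bijective (scale c hc) := by
  rw [Function.bijective_iff_has_inverse]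
  refine ⟨scale c⁻¹ (inv_pos.2 hc), scale_inv c hc, ?_⟩
  intro z
  apply ext'
  · simp only [scale, mkP_re]; field_simp
  · simp only [scale, mkP_im]; field_simp

theorem scale_pre (c : ℝ) (hc : 0 < c) (K : Set ℍ) (hK : IsHorocycle K) :
    IsHorocycle (scale c hc ⁻¹' K) := by
  rcases hK with ⟨c', hc', rfl⟩ | ⟨x, r, hr, rfl⟩
  · left
    refine ⟨c' * c, by positivity, ?_⟩
    ext z
    simp only [Set.mem_preimage, hline, Set.mem_ofPred_eq, scale, mkP_im]
    rw [div_eq_iff hc.ne']
  · right
    refine ⟨c * x, c * r, by positivity, ?_⟩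
    ext z
    rw [Set.mem_preimage, mem_circ, mem_circ]
    simp only [scale, mkP_re, mkP_im]
    constructor
    · intro h
      field_simp at h
      linear_combination h
    · intro h
      field_simp
      linear_combination h

/-- the norm of `z - x` -/
noncomputable def nm (x : ℝ) (z : ℍ) : ℝ := (z.re - x) ^ 2 + z.im ^ 2

theorem nm_pos (x : ℝ) (z : ℍ) : 0 < nm x z := by
  unfold nm
  have := z.im_pos
  positivity

/-- `-2 r / (z - x)` -/
noncomputable def inv (x r : ℝ) (hr : 0 < r) (z : ℍ) : ℍ :=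
  mkP (-(2 * r * (z.re - x)) / nm x z) (2 * r * z.im / nm x z)
    (div_pos (by have := z.im_pos; positivity) (nm_pos x z))

/-- `x - 2 r / w` -/
noncomputable def inv' (x r : ℝ) (hr : 0 < r) (w : ℍ) : ℍ :=
  mkP (x - 2 * r * w.re / nm 0 w) (2 * r * w.im / nm 0 w)
    (div_pos (by have := w.im_pos; positivity) (nm_pos 0 w))

theorem nm_inv (x r : ℝ) (hr : 0 < r) (z : ℍ) : nm 0 (inv x r hr z) = 4 * r ^ 2 / nm x z := by
  have h1 := nm_pos x z
  have h3 : (z.re - x) ^ 2 + z.im ^ 2 = nm x z := rfl
  rw [nm]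
  simp only [inv, mkP_re, mkP_im]
  generalize nm x z = N at h1 h3
  field_simp
  linear_combination 4 * r ^ 2 * h3

theorem nm_inv' (x r : ℝ) (hr : 0 < r) (z : ℍ) : nm x (inv' x r hr z) = 4 * r ^ 2 / nm 0 z := by
  have h1 := nm_pos 0 z
  have h3 : (z.re - 0) ^ 2 + z.im ^ 2 = nm 0 z := rfl
  rw [nm]
  simp only [inv', mkP_re, mkP_im]
  generalize nm 0 z = N at h1 h3
  field_simp
  linear_combination 4 * r ^ 2 * h3

theorem inv_bij (x r : ℝ) (hr : 0 < r) : Function.Bijective (inv x r hr) := by
  rw [Function.bijective_iff_has_inverse]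
  refine ⟨inv' x r hr, ?_, ?_⟩
  · intro z
    have h1 := nm_pos x z
    have h2 := nm_inv x r hr z
    apply ext'
    · rw [inv', mkP_re, h2, inv, mkP_re]
      field_simp
      ring
    · rw [inv', mkP_im, h2, inv, mkP_im]
      field_simp
      norm_num
  · intro z
    have h1 := nm_pos 0 z
    have h2 := nm_inv' x r hr z
    apply ext'
    · rw [inv, mkP_re, h2, inv', mkP_re]
      field_simp
      ring
    · rw [inv, mkP_im, h2, inv', mkP_im]
      field_simp
      norm_num

theorem inv_pre (x r : ℝ) (hr : 0 < r) (K : Set ℍ) (hK : IsHorocycle K) :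
    IsHorocycle (inv x r hr ⁻¹' K) := by
  rcases hK with ⟨c, hc, rfl⟩ | ⟨x', r', hr', rfl⟩
  · right
    refine ⟨x, r / c, by positivity, ?_⟩
    ext z
    have h1 := nm_pos x z
    have h3 : (z.re - x) ^ 2 + z.im ^ 2 = nm x z := rfl
    rw [Set.mem_preimage, mem_circ]
    simp only [hline, Set.mem_ofPred_eq, inv, mkP_im]
    rw [h3, div_eq_iff h1.ne']
    constructor
    · intro h
      field_simp
      linear_combination -h
    · intro h
      field_simp at h
      linear_combination -h
  · by_cases hx' : x' = 0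
    · left
      refine ⟨r / r', by positivity, ?_⟩
      ext z
      have h1 := nm_pos x z
      have h2 := nm_inv x r hr z
      rw [Set.mem_preimage, mem_circ, hx']
      rw [nm] at h2
      rw [h2]
      simp only [hline, Set.mem_ofPred_eq, inv, mkP_im]
      constructor
      · intro h
        field_simp at h ⊢
        linarith
      · intro h
        rw [h]
        field_simp
        ring
    · right
      refine ⟨x - 2 * r / x', 2 * r * r' / x' ^ 2, by positivity, ?_⟩
      ext z
      have h1 := nm_pos x z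
      have h2 := nm_inv x r hr z
      have h3 : (z.re - x) ^ 2 + z.im ^ 2 = nm x z := rfl
      rw [nm] at h2
      rw [Set.mem_preimage, mem_circ, mem_circ]
      have h4 : ((inv x r hr z).re - x') ^ 2 + (inv x r hr z).im ^ 2 =
          4 * r ^ 2 / nm x z + x' ^ 2 + 4 * r * (z.re - x) * x' / nm x z := by
        rw [← h2]
        have h5 : (inv x r hr z).re = -(2 * r * (z.re - x)) / nm x z := rfl
        rw [h5]
        ring
      rw [h4]
      have h6 : (inv x r hr z).im = 2 * r * z.im / nm x z := rfl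
      rw [h6]
      generalize nm x z = N at h1 h3
      constructor
      · intro h
        field_simp at h ⊢
        rw [← h3] at h
        linear_combination h
      · intro h
        field_simp at h ⊢
        rw [← h3]
        linear_combination h

theorem exists_isom {H : Set ℍ} (hH : IsHorocycle H) : ∃ φ : ℍ → ℍ, Function.Bijective φ ∧
    (∀ K, IsHorocycle K → IsHorocycle (φ ⁻¹' K)) ∧ ∀ z, z ∈ H ↔ φ z ∈ hline 1 := by
  rcases hH with ⟨c, hc, rfl⟩ | ⟨x, r, hr, rfl⟩
  · refine ⟨scale c hc, scale_bij c hc, scale_pre c hc, fun z => ?_⟩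
    simp only [hline, Set.mem_ofPred_eq, scale, mkP_im]
    rw [div_eq_one_iff_eq hc.ne']
  · refine ⟨inv x r hr, inv_bij x r hr, inv_pre x r hr, fun z => ?_⟩
    have h1 := nm_pos x z
    have h3 : (z.re - x) ^ 2 + z.im ^ 2 = nm x z := rfl
    rw [mem_circ]
    simp only [hline, Set.mem_ofPred_eq, inv, mkP_im]
    rw [h3, div_eq_one_iff_eq h1.ne', eq_comm]

end Pool.Agent.Hhelper97.Horo
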