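import Pool.Agent.Hhelper97.Horo.Extremal
import Pool.Agent.Hhelper97.Horo.Isom

/-!
The extremal sets are congruent to the golden chain.
-/

set_option autoImplicit false

open Finset UpperHalfPlane

namespace Pool.Agent.Hhelper97.Horo

/-! ### isometries -/

theorem isometry_of_coords {φ : ℍ → ℍ} (h : ∀ z w : ℍ,
    (((φ z).re - (φ w).re) ^ 2 + ((φ z).im - (φ w).im) ^ 2) * (z.im * w.im) =
      ((z.re - w.re) ^ 2 + (z.im - w.im) ^ 2) * ((φ z).im * (φ w).im)) : Isometry φ := by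
  apply Isometry.of_dist_eq
  intro z w
  have h1 : Real.cosh (dist (φ z) (φ w)) = Real.cosh (dist z w) := by
    have c : ∀ z w : ℍ, dist (z : ℂ) w ^ 2 = (z.re - w.re) ^ 2 + (z.im - w.im) ^ 2 := by
      intro z w
      rw [Complex.dist_eq_re_im, Real.sq_sqrt (by positivity)]
      rfl
    rw [cosh_dist, cosh_dist, c, c]
    congr 1
    have := z.im_pos
    have := w.im_pos
    have := (φ z).im_pos
    have := (φ w).im_pos
    rw [div_eq_div_iff (by positivity) (by positivity)]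
    linear_combination 2 * h z w
  have k3 := Real.cosh_le_cosh.1 h1.le
  have k4 := Real.cosh_le_cosh.1 h1.ge
  rw [abs_of_nonneg dist_nonneg, abs_of_nonneg dist_nonneg] at k3 k4
  exact le_antisymm k3 k4

theorem scale_isometry (c : ℝ) (hc : 0 < c) : Isometry (scale c hc) := by
  apply isometry_of_coords
  intro z w
  simp only [scale, mkP_re, mkP_im]
  ring

theorem inv_isometry (x r : ℝ) (hr : 0 < r) : Isometry (inv x r hr) := by
  apply isometry_of_coords
  intro z w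
  have h1 := nm_pos x z
  have h2 := nm_pos x w
  have h3 : (z.re - x) ^ 2 + z.im ^ 2 = nm x z := rfl
  have h4 : (w.re - x) ^ 2 + w.im ^ 2 = nm x w := rfl
  simp only [inv, mkP_re, mkP_im]
  generalize nm x z = N at h1 h3
  generalize nm x w = M at h2 h4
  subst h3
  subst h4
  field_simp
  ring

/-- the map `(a, b) ↦ (x + ε a, b)` -/
noncomputable def mv (x ε : ℝ) (z : ℍ) : ℍ := mkP (x + ε * z.re) z.im z.im_pos

theorem mv_isometry (x : ℝ) {ε : ℝ} (hε : ε = 1 ∨ ε = -1) : Isometry (mv x ε) := by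
  apply isometry_of_coords
  intro z w
  simp only [mv, mkP_re, mkP_im]
  rcases hε with rfl | rfl <;> ring

theorem mv_surj (x : ℝ) {ε : ℝ} (hε : ε = 1 ∨ ε = -1) : Function.Surjective (mv x ε) := by
  intro z
  refine ⟨mkP (ε * (z.re - x)) z.im z.im_pos, ?_⟩
  apply ext'
  · simp only [mv, mkP_re]
    rcases hε with rfl | rfl <;> ring
  · simp only [mv, mkP_im]

/-! ### the golden chain in the coordinates -/

/-- coordinates of the golden chain -/
noncomputable def gc (a : ℝ) (i : ℕ) : ℝ := (-1) ^ i * ((i + 1 / 2) * a)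

theorem sinh_sign (i : ℕ) (u : ℝ) : Real.sinh ((-1) ^ i * u) = (-1) ^ i * Real.sinh u := by
  rcases neg_one_pow_eq_or ℝ i with h | h <;> rw [h]
  · rw [one_mul, one_mul]
  · rw [neg_one_mul, neg_one_mul, Real.sinh_neg]

theorem sinh_half {a : ℝ} (ha : 0 < a) (hc : Real.cosh a = 3 / 2) : Real.sinh (a / 2) = 1 / 2 := by
  have h1 : Real.cosh a = 1 + 2 * Real.sinh (a / 2) ^ 2 := by
    have h2 : a = 2 * (a / 2) := by ring
    rw [h2, Real.cosh_two_mul, Real.cosh_sq, ← h2]
    ring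
  have h2 : 0 < Real.sinh (a / 2) := by rw [Real.sinh_pos_iff]; linarith
  have h3 : (Real.sinh (a / 2) - 1 / 2) * (Real.sinh (a / 2) + 1 / 2) = 0 := by
    rw [hc] at h1
    linear_combination (-1 / 2) * h1
  rcases mul_eq_zero.1 h3 with h | h
  · linarith
  · linarith

theorem X_eq {a : ℝ} (ha : 0 < a) (hc : Real.cosh a = 3 / 2) (i : ℕ) :
    X i = 4 / 5 * Real.sinh (gc a i) := by
  have key : ∀ i : ℕ, X i = (-1) ^ i * (4 / 5 * Real.sinh ((i + 1 / 2) * a)) ∧
      X (i + 1) = (-1) ^ (i + 1) * (4 / 5 * Real.sinh (((i + 1 : ℕ) + 1 / 2) * a)) := by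
    intro i
    induction i with
    | zero =>
      constructor
      · have : ((0 : ℕ) + 1 / 2 : ℝ) * a = a / 2 := by push_cast; ring
        rw [this, sinh_half ha hc, X]
        norm_num
      · have : (((0 + 1 : ℕ) : ℝ) + 1 / 2) * a = 3 * (a / 2) := by push_cast; ring
        rw [this, Real.sinh_three_mul, sinh_half ha hc, X]
        norm_num
    | succ i ih =>
      refine ⟨ih.2, ?_⟩
      rw [X_succ_succ, ih.1, ih.2]
      obtain ⟨u, hu⟩ : ∃ u : ℝ, u = ((i + 1 : ℕ) + 1 / 2) * a := ⟨_, rfl⟩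
      have e1 : ((i : ℝ) + 1 / 2) * a = u - a := by rw [hu]; push_cast; ring
      have e2 : (((i + 1 + 1 : ℕ) : ℝ) + 1 / 2) * a = u + a := by rw [hu]; push_cast; ring
      rw [← hu, e1, e2, Real.sinh_add, Real.sinh_sub, hc, pow_succ, pow_succ, pow_succ]
      ring
  rw [gc, sinh_sign, (key i).1]
  ring

theorem gc_injective {a : ℝ} (ha : 0 < a) (hc : Real.cosh a = 3 / 2) :
    Function.Injective (gc a) := by
  intro i j h
  apply X_injective
  rw [X_eq ha hc, X_eq ha hc, h]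

theorem cover {N : ℕ} {a m : ℝ} (hc : 2 * m + (N - 1) * (2 * a) = a) :
    ∃ ε : ℝ, (ε = 1 ∨ ε = -1) ∧ ∀ i < N, ∃ t < N, ε * gc a i = m + t * (2 * a) := by
  have hm : m = a / 2 - (N - 1) * a := by linarith
  rcases Nat.even_or_odd' N with ⟨M, rfl | rfl⟩
  · refine ⟨-1, Or.inr rfl, fun i hi => ?_⟩
    rcases Nat.even_or_odd' i with ⟨j, rfl | rfl⟩
    · obtain ⟨r, rfl⟩ : ∃ r, M = j + 1 + r := ⟨M - j - 1, by omega⟩
      refine ⟨r, by omega, ?_⟩
      rw [gc, pow_mul, hm]
      push_cast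
      ring
    · refine ⟨M + j, by omega, ?_⟩
      rw [gc, pow_succ, pow_mul, hm]
      push_cast
      ring
  · refine ⟨1, Or.inl rfl, fun i hi => ?_⟩
    rcases Nat.even_or_odd' i with ⟨j, rfl | rfl⟩
    · refine ⟨M + j, by omega, ?_⟩
      rw [gc, pow_mul, hm]
      push_cast
      ring
    · obtain ⟨r, rfl⟩ : ∃ r, M = j + 1 + r := ⟨M - j - 1, by omega⟩
      refine ⟨r, by omega, ?_⟩
      rw [gc, pow_succ, pow_mul, hm]
      push_cast
      ring

theorem cover' {N : ℕ} {a m : ℝ}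
    (hc : 2 * m + (N - 1) * (2 * a) = a ∨ 2 * m + (N - 1) * (2 * a) = -a) :
    ∃ ε : ℝ, (ε = 1 ∨ ε = -1) ∧ ∀ i < N, ∃ t < N, ε * gc a i = m + t * (2 * a) := by
  rcases hc with hc | hc
  · exact cover hc
  · obtain ⟨ε, hε, h⟩ := cover (N := N) (a := a) (m := -(m + (N - 1) * (2 * a))) (by linarith)
    refine ⟨-ε, by rcases hε with rfl | rfl <;> simp, fun i hi => ?_⟩
    obtain ⟨t, ht, h1⟩ := h i hi
    refine ⟨N - 1 - t, by omega, ?_⟩
    rw [neg_mul, h1, Nat.sub_sub, Nat.cast_sub (by omega)]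
    push_cast
    ring

theorem ident {S : Finset ℝ} {a : ℝ} (ha : 0 < a) (hc : Real.cosh a = 3 / 2) (hS : 7 ≤ #S)
    (hU : #(lights S (fun s => s + 2 * a)) = 1)
    (hW : #(lights S (fun s => a - s)) + #(lights S (fun s => -a - s)) = 2) :
    ∃ ε : ℝ, (ε = 1 ∨ ε = -1) ∧ (range #S).image (fun i => ε * gc a i) = S := by
  classical
  obtain ⟨m, hm⟩ := chain (by linarith : (0 : ℝ) < 2 * a) hU
  obtain ⟨ε, hε, h⟩ := cover' (centre ha hS hW hm)
  refine ⟨ε, hε, ?_⟩
  apply eq_of_subset_of_card_le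
  · intro s hs
    obtain ⟨i, hi, rfl⟩ := mem_image.1 hs
    rw [mem_range] at hi
    obtain ⟨t, ht, h1⟩ := h i hi
    exact (hm _).2 ⟨t, ht, h1⟩
  · rw [card_image_of_injective, card_range]
    intro i j hij
    apply gc_injective ha hc
    simp only at hij
    rcases hε with rfl | rfl
    · linarith
    · linarith

end Pool.Agent.Hhelper97.Horo
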