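import Pool.Agent.Hhelper97.Horo.Rigid

/-!
The horocycles through a point off the line and exactly one point of the set on the line.
-/

set_option autoImplicit false

open Finset UpperHalfPlane

namespace Pool.Agent.Hhelper97.Horo

/-- elements whose partner is missing -/
noncomputable def lights (S : Finset ℝ) (φ : ℝ → ℝ) : Finset ℝ := {s ∈ S | φ s ∉ S ∨ φ s = s}

open Classical in
/-- the horocycles of the lights of two maps -/
noncomputable def LL (e : ℝ → ℝ) (S : Finset ℝ) (φ₁ φ₂ : ℝ → ℝ) : Finset (Set ℍ) :=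
  (lights S φ₁).image (fun s => hor (e s) (e (φ₁ s))) ∪
    (lights S φ₂).image (fun s => hor (e s) (e (φ₂ s)))

theorem trace_light {e : ℝ → ℝ} (he : Function.Injective e) {S : Finset ℝ} {s t c : ℝ}
    (ht : t ∉ S ∨ t = s) (hc : c ∈ S) (h : pt (e c) ∈ hor (e s) (e t)) : c = s := by
  rcases pt_mem_hor.1 h with h1 | h1
  · exact he h1
  · have h2 := he h1
    rcases ht with h3 | h3
    · exact absurd (h2 ▸ hc) h3
    · rw [h2, h3]

theorem mem_LL {e : ℝ → ℝ} {S : Finset ℝ} {φ₁ φ₂ : ℝ → ℝ} {K : Set ℍ} :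
    K ∈ LL e S φ₁ φ₂ ↔ ∃ s ∈ S, ∃ t, (t = φ₁ s ∨ t = φ₂ s) ∧ (t ∉ S ∨ t = s) ∧
      K = hor (e s) (e t) := by
  classical
  unfold LL lights
  simp only [mem_union, mem_image, mem_filter]
  constructor
  · rintro (⟨s, ⟨h1, h2⟩, rfl⟩ | ⟨s, ⟨h1, h2⟩, rfl⟩)
    · exact ⟨s, h1, _, Or.inl rfl, h2, rfl⟩
    · exact ⟨s, h1, _, Or.inr rfl, h2, rfl⟩
  · rintro ⟨s, h1, t, h2 | h2, h3, rfl⟩
    · left; exact ⟨s, ⟨h1, by rwa [← h2]⟩, by rw [h2]⟩
    · right; exact ⟨s, ⟨h1, by rwa [← h2]⟩, by rw [h2]⟩

theorem card_LL {e : ℝ → ℝ} (he : Function.Injective e) {S : Finset ℝ} {φ₁ φ₂ : ℝ → ℝ}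
    (hφ : ∀ s, φ₁ s ≠ φ₂ s) : #(LL e S φ₁ φ₂) = #(lights S φ₁) + #(lights S φ₂) := by
  classical
  have inj : ∀ φ : ℝ → ℝ, Set.InjOn (fun s => hor (e s) (e (φ s))) (lights S φ) := by
    intro φ s hs t ht hst
    unfold lights at hs ht
    simp only [coe_filter, Set.mem_ofPred_eq] at hs ht
    simp only at hst
    have h1 : pt (e s) ∈ hor (e t) (e (φ t)) := by
      rw [← hst]; exact pt_mem_hor.2 (Or.inl rfl)
    exact trace_light he ht.2 hs.1 h1
  unfold LL
  rw [card_union_of_disjoint, card_image_of_injOn (inj φ₁), card_image_of_injOn (inj φ₂)]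
  rw [disjoint_left]
  intro K h1 h2
  obtain ⟨s, hs, rfl⟩ := mem_image.1 h1
  obtain ⟨t, ht, hst⟩ := mem_image.1 h2
  unfold lights at hs ht
  simp only [mem_filter] at hs ht
  have h3 : pt (e t) ∈ hor (e s) (e (φ₁ s)) := by
    rw [← hst]; exact pt_mem_hor.2 (Or.inl rfl)
  have h4 := trace_light he hs.2 ht.1 h3
  subst h4
  have h5 : pt (e (φ₂ t)) ∈ hor (e t) (e (φ₁ t)) := by
    rw [← hst]; exact pt_mem_hor.2 (Or.inr rfl)
  have h6 : pt (e (φ₁ t)) ∈ hor (e t) (e (φ₂ t)) := by
    rw [hst]; exact pt_mem_hor.2 (Or.inr rfl)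
  rcases pt_mem_hor.1 h5 with h7 | h7
  · rcases pt_mem_hor.1 h6 with h8 | h8
    · exact hφ t ((he h8).trans (he h7).symm)
    · exact hφ t (he h8)
  · exact hφ t (he h7).symm

/-! ### translations -/

theorem lights_add {S : Finset ℝ} {l : ℝ} (hl : 0 < l) :
    lights S (fun s => s + l) = out S (fun s => s + l) := by
  unfold lights out
  ext s
  simp only [mem_filter]
  constructor
  · rintro ⟨h1, h2 | h2⟩
    · exact ⟨h1, h2⟩
    · linarith
  · rintro ⟨h1, h2⟩
    exact ⟨h1, Or.inl h2⟩

theorem lights_sub {S : Finset ℝ} {l : ℝ} (hl : 0 < l) :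
    lights S (fun s => s - l) = new S (fun s => s + l) := by
  unfold lights new
  ext s
  simp only [mem_filter]
  constructor
  · rintro ⟨h1, h2 | h2⟩
    · refine ⟨h1, fun b hb h3 => h2 ?_⟩
      have : s - l = b := by linarith
      rwa [this]
    · linarith
  · rintro ⟨h1, h2⟩
    refine ⟨h1, Or.inl fun h3 => h2 _ h3 (by ring)⟩

theorem add_strictMono (l : ℝ) : StrictMono (fun s : ℝ => s + l) := fun a b h => by
  simp only; linarith

theorem card_lights_sub {S : Finset ℝ} {l : ℝ} (hl : 0 < l) :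
    #(lights S (fun s => s - l)) = #(lights S (fun s => s + l)) := by
  rw [lights_sub hl, lights_add hl, card_new (add_strictMono l) (fun x => by linarith)]

theorem lights_add_pos {S : Finset ℝ} (hS : S.Nonempty) {l : ℝ} (hl : 0 < l) :
    1 ≤ #(lights S (fun s => s + l)) := by
  rw [Nat.one_le_iff_ne_zero, ← Nat.pos_iff_ne_zero, card_pos]
  refine ⟨S.max' hS, ?_⟩
  unfold lights
  rw [mem_filter]
  refine ⟨S.max'_mem hS, Or.inl fun h => ?_⟩
  have := S.le_max' _ h
  linarith

/-! ### reflections -/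

theorem lights_reflect_parity (S : Finset ℝ) (l : ℝ) :
    (#(lights S (fun s => l - s)) : ZMod 2) = (#S : ZMod 2) := by
  classical
  have h1 : #S = #(lights S (fun s => l - s)) + #{s ∈ S | l - s ∈ S ∧ l - s ≠ s} := by
    unfold lights
    rw [← card_union_of_disjoint]
    · congr 1
      ext s
      simp only [mem_union, mem_filter]
      tauto
    · rw [disjoint_left]
      intro s h1 h2
      simp only [mem_filter] at h1 h2
      tauto
  have h2 : ((#{s ∈ S | l - s ∈ S ∧ l - s ≠ s} : ℕ) : ZMod 2) = 0 := by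
    have h3 : ∑ s ∈ {s ∈ S | l - s ∈ S ∧ l - s ≠ s}, (1 : ZMod 2) = 0 := by
      apply Finset.sum_involution (fun s _ => l - s)
      · intro a _; decide
      · intro a ha _
        rw [mem_filter] at ha
        exact ha.2.2
      · intro a ha
        rw [mem_filter] at ha ⊢
        refine ⟨ha.2.1, ?_, ?_⟩
        · rw [sub_sub_cancel]; exact ha.1
        · rw [sub_sub_cancel]; exact ha.2.2.symm
      · intro a _; ring
    rw [Finset.sum_const] at h3
    simpa using h3
  rw [h1]
  push_cast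
  rw [h2, add_zero]

theorem lights_reflect_even (S : Finset ℝ) (l : ℝ) :
    Even (#(lights S (fun s => l - s)) + #(lights S (fun s => -l - s))) := by
  rw [← ZMod.natCast_eq_zero_iff_even]
  push_cast
  rw [lights_reflect_parity S l, lights_reflect_parity S (-l)]
  have : ∀ x : ZMod 2, x + x = 0 := by decide
  exact this _

theorem lights_reflect_pos {S : Finset ℝ} (hS : S.Nonempty) {l : ℝ} (hl : 0 < l) :
    S.max' hS ∈ lights S (fun s => -l - s) ∨ S.min' hS ∈ lights S (fun s => l - s) := by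
  by_contra h
  push Not at h
  unfold lights at h
  simp only [mem_filter, not_and, not_or, not_not] at h
  have h1 := h.1 (S.max'_mem hS)
  have h2 := h.2 (S.min'_mem hS)
  have h3 := S.min'_le _ h1.1
  have h4 := S.le_max' _ h2.1
  linarith

theorem lights_reflect_two {S : Finset ℝ} (hS : S.Nonempty) {l : ℝ} (hl : 0 < l) :
    2 ≤ #(lights S (fun s => l - s)) + #(lights S (fun s => -l - s)) := by
  have h1 := lights_reflect_even S l
  have h2 : 1 ≤ #(lights S (fun s => l - s)) + #(lights S (fun s => -l - s)) := by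
    rcases lights_reflect_pos hS hl with h | h
    · have := card_pos.2 ⟨_, h⟩
      omega
    · have := card_pos.2 ⟨_, h⟩
      omega
  obtain ⟨k, hk⟩ := h1
  omega

theorem out_two_le (S : Finset ℝ) (l : ℝ) :
    #(out S (fun s => s + 2 * l)) ≤
      #(lights S (fun s => l - s)) + #(lights S (fun s => -l - s)) := by
  classical
  have h1 : out S (fun s => s + 2 * l) ⊆
      (lights S (fun s => l - s)).image (fun s => -l - s) ∪ lights S (fun s => -l - s) := by
    intro s hs
    unfold out at hs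
    rw [mem_filter] at hs
    rw [mem_union]
    by_cases h : -l - s ∈ S
    · left
      rw [mem_image]
      refine ⟨-l - s, ?_, by ring⟩
      unfold lights
      rw [mem_filter]
      refine ⟨h, Or.inl fun h2 => hs.2 ?_⟩
      have : l - (-l - s) = s + 2 * l := by ring
      simp only at h2 ⊢
      rwa [this] at h2
    · right
      unfold lights
      rw [mem_filter]
      exact ⟨hs.1, Or.inl h⟩
  refine (card_le_card h1).trans ((card_union_le _ _).trans ?_)
  exact Nat.add_le_add_right card_image_le _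

theorem out_shift_le {A : Finset ℝ} {x κ l : ℝ} (hκ : 0 < κ) :
    #(out A (shift x κ l)) ≤ #(out (A.image (crd x κ)) (fun s => s + l)) := by
  classical
  rw [← card_image_of_injective (out A (shift x κ l)) (crd_injective (x := x) hκ)]
  apply card_le_card
  intro s hs
  obtain ⟨a, ha, rfl⟩ := mem_image.1 hs
  unfold out at ha ⊢
  rw [mem_filter] at ha ⊢
  refine ⟨mem_image_of_mem _ ha.1, fun h => ha.2 ?_⟩
  obtain ⟨b, hb, h2⟩ := mem_image.1 h
  have : shift x κ l a = b := by
    unfold shift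
    simp only at h2
    rw [← h2, E_crd hκ]
  rwa [this]

end Pool.Agent.Hhelper97.Horo
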