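import Pool.Agent.Hhelper97.Horo.Mixed
import Pool.Agent.Hhelper97.Horo.Isom

/-!
Sets with at most two points off a horocycle.
-/

set_option autoImplicit false

open Finset UpperHalfPlane

namespace Pool.Agent.Hhelper97.Horo

theorem exists_good {R : ℍ} (hR : R.im ≠ 1) {A : Finset ℝ} (hA : A.Nonempty) :
    ∃ L, Good R A L ∧ (R.im < 1 → L = LB R A) ∧ (1 < R.im → L = LA R A) := by
  rcases lt_or_gt_of_ne hR with h | h
  · exact ⟨LB R A, good_below h hA, fun _ => rfl, fun h' => absurd h (not_lt.2 h'.le)⟩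
  · exact ⟨LA R A, good_above h hA, fun h' => absurd h (not_lt.2 h'.le), fun _ => rfl⟩

theorem two_off {A : Finset ℝ} (hA : 261 ≤ #A) {p q : ℍ} (hp : p.im ≠ 1) (hq : q.im ≠ 1)
    (hpq : p ≠ q) {P : Finset ℍ} (hpP : p ∈ P) (hqP : q ∈ P) (hP : ∀ a ∈ A, pt a ∈ P) :
    (#A).choose 2 + 6 ≤ h P := by
  classical
  have hAne : A.Nonempty := card_pos.1 (by omega)
  obtain ⟨L, gL, hL1, hL2⟩ := exists_good hp hAne
  obtain ⟨L', gL', hL1', hL2'⟩ := exists_good hq hAne
  obtain ⟨k, hk⟩ := gL.1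
  obtain ⟨k', hk'⟩ := gL'.1
  have fin : ∀ (M₁ M₀ : Finset (Set ℍ)), M₁ ⊆ L ∪ L' →
      (∀ K ∈ M₀, IsHorocycle K ∧ p ∈ K ∧ q ∈ K ∧ ∀ c ∈ A, pt c ∉ K) → 5 ≤ #M₁ + #M₀ →
      (#A).choose 2 + 6 ≤ h P := by
    intro M₁ M₀ h1 h0 h5
    have := count_two (by omega) hp hq hpq (M₁ := M₁) (M₀ := M₀) (A := A) (fun K hK => by
      rcases mem_union.1 (h1 hK) with h2 | h2
      · obtain ⟨_, h3, h4, h5⟩ := gL.2.2.2 K h2
        exact ⟨h3, Or.inl h4, h5⟩
      · obtain ⟨_, h3, h4, h5⟩ := gL'.2.2.2 K h2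
        exact ⟨h3, Or.inr h4, h5⟩) h0 hpP hqP hP
    omega
  by_cases h6 : #L + #L' ≤ 6
  · obtain ⟨l, hl, ho⟩ := gL.2.2.1
    obtain ⟨l', hl', ho'⟩ := gL'.2.2.1
    obtain ⟨hx, hκ, _⟩ := rigid (abs_pos' hp) (abs_pos' hq) hl hl' ho ho' h6 hA
    rcases lt_or_gt_of_ne hp with h1 | h1 <;> rcases lt_or_gt_of_ne hq with h2 | h2
    · exfalso
      apply hpq
      apply ext' hx
      rw [abs_of_neg (by linarith), abs_of_neg (by linarith)] at hκ
      linarith
    · rw [hL1 h1, hL2' h2] at h6 fin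
      obtain ⟨M₁, M₀, h3, h4, h5⟩ := mixed h1 h2 hκ hx (by omega) h6
      exact fin M₁ M₀ h3 h4 h5
    · rw [hL2 h1, hL1' h2] at h6 fin
      obtain ⟨M₁, M₀, h3, h4, h5⟩ := mixed h2 h1 hκ.symm hx.symm (A := A) (by omega) (by omega)
      refine fin M₁ M₀ (by rwa [union_comm]) ?_ h5
      intro K hK
      obtain ⟨k1, k2, k3, k4⟩ := h4 K hK
      exact ⟨k1, k3, k2, k4⟩
    · exfalso
      apply hpq
      apply ext' hx
      rw [abs_of_pos (by linarith), abs_of_pos (by linarith)] at hκ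
      linarith
  · apply fin (L ∪ L') ∅ (Subset.refl _) (by simp)
    have h1 : #(L ∩ L') ≤ 2 := by
      apply circ_two hpq
      intro K hK
      rw [mem_inter] at hK
      obtain ⟨c1, _, c2, _⟩ := gL.2.2.2 K hK.1
      obtain ⟨_, _, c3, _⟩ := gL'.2.2.2 K hK.2
      exact ⟨c2, c3, c1⟩
    have h2 := card_union_add_card_inter L L'
    rw [card_empty]
    omega

theorem lower {P : Finset ℍ} {n : ℕ} (hn : 263 ≤ n) (hP : #P = n) {H : Set ℍ}
    (hH : IsHorocycle H) (hc : n ≤ ((P : Set ℍ) ∩ H).ncard + 2) :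
    (n - 2).choose 2 + 6 ≤ h P := by
  classical
  obtain ⟨φ, hφ, hpre, hHφ⟩ := exists_isom hH
  refine le_trans ?_ (h_image_le hφ.surjective hpre P)
  have hQ : #(P.image φ) = n := by rw [card_image_of_injective _ hφ.injective, hP]
  set Q := P.image φ with hQdef
  set Q₁ := Q.filter (fun z => z.im = 1) with hQ₁
  have hcard : #Q₁ = ((P : Set ℍ) ∩ H).ncard := by
    have h1 : ((P : Set ℍ) ∩ H) = ((P.filter (fun z => z ∈ H) : Finset ℍ) : Set ℍ) := by
      ext z; simp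
    rw [h1, Set.ncard_coe_finset,
      ← card_image_of_injective (P.filter (fun z => z ∈ H)) hφ.injective]
    congr 1
    ext z
    rw [hQ₁, mem_filter, mem_image, mem_image]
    constructor
    · rintro ⟨⟨w, hw, rfl⟩, h2⟩
      exact ⟨w, mem_filter.2 ⟨hw, (hHφ w).2 h2⟩, rfl⟩
    · rintro ⟨w, hw, rfl⟩
      rw [mem_filter] at hw
      exact ⟨⟨w, hw.1, rfl⟩, (hHφ w).1 hw.2⟩
  rw [← hcard] at hc
  set A := Q₁.image (fun z : ℍ => z.re) with hAdef
  have hAcard : #A = #Q₁ := by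
    rw [hAdef]
    apply card_image_of_injOn
    intro z hz w hw hzw
    rw [mem_coe, hQ₁, mem_filter] at hz hw
    exact ext' hzw (hz.2.trans hw.2.symm)
  have hAP : ∀ a ∈ A, pt a ∈ Q := by
    intro a ha
    obtain ⟨z, hz, rfl⟩ := mem_image.1 ha
    rw [hQ₁, mem_filter] at hz
    have : pt z.re = z := ext' rfl hz.2.symm
    rw [this]
    exact hz.1
  have hle : #Q₁ ≤ n := by rw [← hQ]; exact card_filter_le _ _
  by_cases h2 : #Q₁ = n - 2
  · have h3 : #(Q.filter (fun z => ¬ z.im = 1)) = 2 := by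
      have := card_filter_add_card_filter_not (s := Q) (fun z : ℍ => z.im = 1)
      rw [hQ, ← hQ₁] at this
      omega
    obtain ⟨p, q, hpq, hpq'⟩ := card_eq_two.1 h3
    have hp : p ∈ Q.filter (fun z => ¬ z.im = 1) := by rw [hpq']; simp
    have hq : q ∈ Q.filter (fun z => ¬ z.im = 1) := by rw [hpq']; simp
    rw [mem_filter] at hp hq
    have h4 := two_off (A := A) (by omega) hp.2 hq.2 hpq hp.1 hq.1 hAP
    rw [hAcard, h2] at h4
    exact h4
  · have h3 : n - 1 ≤ #A := by omega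
    have h4 := count_line (A := A) (by omega) hAP
    have h5 : (n - 1).choose 2 ≤ (#A).choose 2 := Nat.choose_le_choose 2 h3
    have h6 : (n - 1).choose 2 = (n - 2).choose 2 + (n - 2) := by
      obtain ⟨m, rfl⟩ : ∃ m, n = m + 3 := ⟨n - 3, by omega⟩
      have : m + 3 - 1 = (m + 1) + 1 := by omega
      rw [this, Nat.choose_succ_succ' (m + 1) 1, Nat.choose_one_right]
      have : m + 3 - 2 = m + 1 := by omega
      rw [this]
      ring
    omega

theorem near_horocyclic {n : ℕ} (hn : 263 ≤ n) :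
    IsLeast {k | ∃ P : Finset ℍ, #P = n ∧
      (∃ H, IsHorocycle H ∧ n ≤ ((P : Set ℍ) ∩ H).ncard + 2) ∧ h P = k}
      ((n - 2).choose 2 + 6) := by
  classical
  constructor
  · have hc : #(golden (n - 2)) = n := by rw [card_golden]; omega
    have hH : n ≤ ((golden (n - 2) : Set ℍ) ∩ hline 1).ncard + 2 := by
      have h1 : (((range (n - 2)).image fun i => pt (X i) : Finset ℍ) : Set ℍ) ⊆
          (golden (n - 2) : Set ℍ) ∩ hline 1 := by
        intro z hz
        rw [mem_coe, mem_image] at hz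
        obtain ⟨i, hi, rfl⟩ := hz
        refine ⟨?_, pt_mem_hline _⟩
        rw [mem_coe, golden, mem_insert, mem_insert, mem_image]
        right; right; exact ⟨i, hi, rfl⟩
      have h2 := Set.ncard_le_ncard h1 ((golden (n - 2)).finite_toSet.inter_of_left _)
      rw [Set.ncard_coe_finset, card_image_of_injective, card_range] at h2
      · omega
      · intro a b hab
        exact X_injective (pt_injective hab)
    exact ⟨golden (n - 2), hc, ⟨hline 1, isHorocycle_hline one_pos, hH⟩,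
      le_antisymm (h_golden_le (by omega)) (lower hn hc (isHorocycle_hline one_pos) hH)⟩
  · rintro k ⟨P, hP, ⟨H, hH, hc⟩, rfl⟩
    exact lower hn hP hH hc

end Pool.Agent.Hhelper97.Horo
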