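import Pool.Agent.Hhelper97.Horo.Point

/-!
Two points at the same distance on the two sides of the line of height one.
-/

set_option autoImplicit false

open Finset UpperHalfPlane

namespace Pool.Agent.Hhelper97.Horo

theorem len_lt {p q : ℍ} (hp : p.im < 1) (hq : 1 < q.im) (hκ : |p.im - 1| = |q.im - 1|) :
    len p.im < len q.im := by
  obtain ⟨a1, a2, _⟩ := len_spec p.im_pos hp.ne
  obtain ⟨b1, b2, _⟩ := len_spec q.im_pos hq.ne'
  have hk : 0 < |q.im - 1| := abs_pos' hq.ne'
  rw [hκ] at a2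
  have h1 : Real.cosh (len p.im) < Real.cosh (len q.im) := by
    by_contra h
    push Not at h
    have := mul_le_mul_of_nonneg_left h hk.le
    linarith
  rw [Real.cosh_lt_cosh, abs_of_pos a1, abs_of_pos b1] at h1
  exact h1

theorem coords_eq {p q : ℍ} (hκ : |p.im - 1| = |q.im - 1|) (hx : p.re = q.re) (A : Finset ℝ) :
    coords q A = coords p A := by
  unfold coords
  rw [hκ, hx]

theorem inter_spec {p q : ℍ} (hq : 1 < q.im) (hκ : |p.im - 1| = |q.im - 1|)
    (hx : p.re = q.re) {A : Finset ℝ} {K : Set ℍ} (h1 : K ∈ LB p A) (h2 : K ∈ LA q A)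
    (hA : A.Nonempty) :
    ∃ s t : ℝ, s ∈ coords p A ∧ t ∉ coords p A ∧ (t = s + len q.im ∨ t = s - len q.im) ∧
      (t = len p.im - s ∨ t = -len p.im - s) ∧
      K = hor (E p.re |p.im - 1| s) (E p.re |p.im - 1| t) := by
  obtain ⟨s, hs, t, ht, ht', rfl⟩ := mem_LL.1 h1
  have h3 := ((good_above hq hA).2.2.2 _ h2).2.2.1
  rw [hκ, hx, above_iff' hq] at h3
  have hl := (len_spec q.im_pos hq.ne').1
  refine ⟨s, t, hs, ?_, h3, ht, rfl⟩
  rcases ht' with h4 | h4
  · exact h4
  · rcases h3 with h3 | h3 <;> linarith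

theorem exists_free {p q : ℍ} (hp : p.im < 1) (hq : 1 < q.im) (hκ : |p.im - 1| = |q.im - 1|)
    (hx : p.re = q.re) {A : Finset ℝ} {s t : ℝ} (hs : s ∉ coords p A) (ht : t ∉ coords p A)
    (h1 : t = s + len q.im ∨ t = s - len q.im) (h2 : t = len p.im - s ∨ t = -len p.im - s) :
    ∃ M₀ : Finset (Set ℍ), (∀ K ∈ M₀, IsHorocycle K ∧ p ∈ K ∧ q ∈ K ∧ ∀ c ∈ A, pt c ∉ K) ∧
      #M₀ = 1 := by
  classical
  refine ⟨{hor (E p.re |p.im - 1| s) (E p.re |p.im - 1| t)}, ?_, card_singleton _⟩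
  intro K hK
  rw [mem_singleton] at hK
  rw [hK]
  refine ⟨isHorocycle_hor _ _, (below_iff' hp s t).2 h2, ?_, ?_⟩
  · rw [hκ, hx]
    exact (above_iff' hq s t).2 h1
  · intro c hc hcK
    have h3 : c = E p.re |p.im - 1| (crd p.re |p.im - 1| c) := (E_crd (abs_pos' hp.ne) c).symm
    have h5 : crd p.re |p.im - 1| c ∈ coords p A := mem_image_of_mem _ hc
    rw [h3] at hcK
    rcases pt_mem_hor.1 hcK with h6 | h6
    · rw [E_injective (abs_pos' hp.ne) h6] at h5
      exact hs h5
    · rw [E_injective (abs_pos' hp.ne) h6] at h5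
      exact ht h5

theorem inter_empty {p q : ℍ} (hp : p.im < 1) (hq : 1 < q.im) (hκ : |p.im - 1| = |q.im - 1|)
    (hx : p.re = q.re) {A : Finset ℝ} (hA : A.Nonempty)
    (hU : #(lights (coords p A) (fun s => s + len q.im)) = 1) (hW : #(LB p A) < #A) :
    LB p A ∩ LA q A = ∅ := by
  have ha := (len_spec p.im_pos hp.ne).1
  have hab := len_lt hp hq hκ
  rw [eq_empty_iff_forall_notMem]
  intro K hK
  obtain ⟨s, t, hs, ht, h1, h2, _⟩ := inter_spec hq hκ hx (mem_inter.1 hK).1
    (mem_inter.1 hK).2 hA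
  exact comb1 ha hab hU (by rw [← card_LB hp A, card_coords hp.ne]; exact hW) hs ht h1 h2

theorem inter_le_one {p q : ℍ} (hp : p.im < 1) (hq : 1 < q.im) (hκ : |p.im - 1| = |q.im - 1|)
    (hx : p.re = q.re) {A : Finset ℝ} (hA : 7 ≤ #A)
    (hU : #(lights (coords p A) (fun s => s + len q.im)) = 2) (hW : #(LB p A) = 2) :
    #(LB p A ∩ LA q A) ≤ 1 := by
  classical
  have hAne : A.Nonempty := card_pos.1 (by omega)
  have ha := (len_spec p.im_pos hp.ne).1
  have hab := len_lt hp hq hκ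
  have hS : #(coords p A) = #A := card_coords hp.ne A
  have cB := card_LB hp A
  by_contra h
  push Not at h
  obtain ⟨K₁, hK₁, K₂, hK₂, hne⟩ := one_lt_card.1 h
  obtain ⟨s₁, t₁, hs₁, ht₁, h1, h1', e1⟩ := inter_spec hq hκ hx (mem_inter.1 hK₁).1
    (mem_inter.1 hK₁).2 hAne
  obtain ⟨s₂, t₂, hs₂, ht₂, h2, h2', e2⟩ := inter_spec hq hκ hx (mem_inter.1 hK₂).1
    (mem_inter.1 hK₂).2 hAne
  have same : ∀ c : ℝ, t₁ = c - s₁ → t₂ = c - s₂ → False := by
    intro c h3 h4
    apply hne
    rw [e1, e2]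
    have h5 : (s₁ = s₂ ∧ t₁ = t₂) ∨ (s₁ = t₂ ∧ t₁ = s₂) := by
      rcases h1 with h1 | h1 <;> rcases h2 with h2 | h2
      · left; constructor <;> linarith
      · right; constructor <;> linarith
      · right; constructor <;> linarith
      · left; constructor <;> linarith
    rcases h5 with ⟨h5, h6⟩ | ⟨h5, h6⟩
    · rw [h5, h6]
    · rw [h5, h6, hor_comm]
  rcases h1' with h1' | h1' <;> rcases h2' with h2' | h2'
  · exact same _ h1' h2'
  · exact comb3 ha hab (by omega) hU (by omega) hs₂ ht₂ h2 h2' hs₁ ht₁ h1 h1'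
  · exact comb3 ha hab (by omega) hU (by omega) hs₁ ht₁ h1 h1' hs₂ ht₂ h2 h2'
  · exact same _ h1' h2'

theorem mixed {p q : ℍ} (hp : p.im < 1) (hq : 1 < q.im) (hκ : |p.im - 1| = |q.im - 1|)
    (hx : p.re = q.re) {A : Finset ℝ} (hA : 7 ≤ #A) (h6 : #(LB p A) + #(LA q A) ≤ 6) :
    ∃ M₁ M₀ : Finset (Set ℍ), M₁ ⊆ LB p A ∪ LA q A ∧
      (∀ K ∈ M₀, IsHorocycle K ∧ p ∈ K ∧ q ∈ K ∧ ∀ c ∈ A, pt c ∉ K) ∧ 5 ≤ #M₁ + #M₀ := by
  classical
  have hAne : A.Nonempty := card_pos.1 (by omega)
  have ha := (len_spec p.im_pos hp.ne).1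
  have hb := (len_spec q.im_pos hq.ne').1
  have hab := len_lt hp hq hκ
  have hS : #(coords p A) = #A := card_coords hp.ne A
  have cA := card_LA hq A
  rw [coords_eq hκ hx] at cA
  have cB := card_LB hp A
  have gA := good_above hq hAne
  have gB := good_below hp hAne
  obtain ⟨kB, hkB⟩ := gB.1
  have hB2 := gB.2.1
  have hA2 := gA.2.1
  have hcu := card_union_add_card_inter (LB p A) (LA q A)
  by_cases hU : #(lights (coords p A) (fun s => s + len q.im)) = 1
  · have hW : #(LB p A) < #A := by omega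
    rw [inter_empty hp hq hκ hx hAne hU hW, card_empty, add_zero] at hcu
    by_cases h4 : 3 ≤ #(LB p A)
    · exact ⟨_, ∅, Subset.refl _, by simp, by rw [card_empty]; omega⟩
    · have hM : ∃ M₀ : Finset (Set ℍ), (∀ K ∈ M₀, IsHorocycle K ∧ p ∈ K ∧ q ∈ K ∧
          ∀ c ∈ A, pt c ∉ K) ∧ #M₀ = 1 := by
        by_contra hno
        set a := len p.im with hadef
        set b := len q.im with hbdef
        set S := coords p A with hSdef
        have v1 : ∀ s t : ℝ, (t = s + b ∨ t = s - b) → (t = a - s ∨ t = -a - s) → s ∈ S ∨ t ∈ S := by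
          intro s t h1 h2
          by_contra h3
          push Not at h3
          exact hno (exists_free hp hq hκ hx h3.1 h3.2 h1 h2)
        have v2 : ∀ s t : ℝ, (t = s + b ∨ t = s - b) → (t = a - s ∨ t = -a - s) → s ∈ S := by
          intro s t h1 h2
          rcases v1 s t h1 h2 with h3 | h3
          · exact h3
          · by_contra h5
            refine comb1 ha hab hU (by omega) h3 h5 (t := s) (s := t) ?_ ?_
            · rcases h1 with h1 | h1
              · right; linarith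
              · left; linarith
            · rcases h2 with h2 | h2
              · left; linarith
              · right; linarith
        refine comb2 ha hab hU (v2 ((b - a) / 2) (-((a + b) / 2)) ?_ ?_)
          (v2 (-((b - a) / 2)) ((a + b) / 2) ?_ ?_)
        · right; ring
        · right; ring
        · left; ring
        · left; ring
      obtain ⟨M₀, h1, h2⟩ := hM
      exact ⟨_, M₀, Subset.refl _, h1, by omega⟩
  · have hint := inter_le_one hp hq hκ hx hA (by omega) (by omega)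
    exact ⟨_, ∅, Subset.refl _, by simp, by rw [card_empty]; omega⟩

end Pool.Agent.Hhelper97.Horo
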