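import Pool.Agent.Hhelper97.Horo.Comb
import Pool.Agent.Hhelper97.Horo.Count

/-!
The lights of a point off the line of height one.
-/

set_option autoImplicit false

open Finset UpperHalfPlane

namespace Pool.Agent.Hhelper97.Horo

/-- the coordinates of the points on the line with respect to `R` -/
noncomputable def coords (R : ℍ) (A : Finset ℝ) : Finset ℝ := A.image (crd R.re |R.im - 1|)

/-- lights of a point above the line -/
noncomputable def LA (R : ℍ) (A : Finset ℝ) : Finset (Set ℍ) :=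
  LL (E R.re |R.im - 1|) (coords R A) (fun s => s + len R.im) (fun s => s - len R.im)

/-- lights of a point below the line -/
noncomputable def LB (R : ℍ) (A : Finset ℝ) : Finset (Set ℍ) :=
  LL (E R.re |R.im - 1|) (coords R A) (fun s => len R.im - s) (fun s => -len R.im - s)

theorem abs_pos' {R : ℍ} (hR : R.im ≠ 1) : 0 < |R.im - 1| := abs_pos.2 (sub_ne_zero.2 hR)

theorem above_iff' {R : ℍ} (hR : 1 < R.im) (s t : ℝ) :
    R ∈ hor (E R.re |R.im - 1| s) (E R.re |R.im - 1| t) ↔ (t = s + len R.im ∨ t = s - len R.im) := by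
  obtain ⟨_, h1, h2⟩ := len_spec R.im_pos hR.ne'
  exact above_iff hR (abs_of_pos (by linarith)) h1 h2 s t

theorem below_iff' {R : ℍ} (hR : R.im < 1) (s t : ℝ) :
    R ∈ hor (E R.re |R.im - 1| s) (E R.re |R.im - 1| t) ↔ (t = len R.im - s ∨ t = -len R.im - s) := by
  obtain ⟨_, h1, h2⟩ := len_spec R.im_pos hR.ne
  refine below_iff hR ?_ h1 h2 s t
  rw [abs_of_neg (by linarith)]; ring

theorem E_mem {R : ℍ} (hR : R.im ≠ 1) {A : Finset ℝ} {s : ℝ} :
    E R.re |R.im - 1| s ∈ A ↔ s ∈ coords R A := by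
  unfold coords
  rw [mem_image]
  constructor
  · intro h
    exact ⟨_, h, crd_E (abs_pos' hR) s⟩
  · rintro ⟨a, ha, rfl⟩
    rwa [E_crd (abs_pos' hR)]

theorem card_coords {R : ℍ} (hR : R.im ≠ 1) (A : Finset ℝ) : #(coords R A) = #A := by
  unfold coords
  exact card_image_of_injective _ (crd_injective (abs_pos' hR))

/-- properties of the lights of a point -/
def Good (R : ℍ) (A : Finset ℝ) (L : Finset (Set ℍ)) : Prop :=
  Even #L ∧ 2 ≤ #L ∧ (∃ l : ℝ, 0 < l ∧ #(out A (shift R.re |R.im - 1| l)) ≤ #L) ∧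
    ∀ K ∈ L, (∃ x r, K = circ x r) ∧ IsHorocycle K ∧ R ∈ K ∧
      ∃ a ∈ A, pt a ∈ K ∧ ∀ c ∈ A, pt c ∈ K → c = a

theorem light_spec {R : ℍ} (hR : R.im ≠ 1) {A : Finset ℝ} {s t : ℝ} (hs : s ∈ coords R A)
    (ht : t ∉ coords R A ∨ t = s) :
    ∃ a ∈ A, pt a ∈ hor (E R.re |R.im - 1| s) (E R.re |R.im - 1| t) ∧
      ∀ c ∈ A, pt c ∈ hor (E R.re |R.im - 1| s) (E R.re |R.im - 1| t) → c = a := by
  refine ⟨_, (E_mem hR).2 hs, pt_mem_hor.2 (Or.inl rfl), ?_⟩
  intro c hc hcK
  have h1 : c = E R.re |R.im - 1| (crd R.re |R.im - 1| c) := (E_crd (abs_pos' hR) c).symm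
  rw [h1] at hcK hc ⊢
  rw [trace_light (E_injective (abs_pos' hR)) ht ((E_mem hR).1 hc) hcK]

theorem card_LA {R : ℍ} (hR : 1 < R.im) (A : Finset ℝ) :
    #(LA R A) = 2 * #(lights (coords R A) (fun s => s + len R.im)) := by
  have hl := (len_spec R.im_pos hR.ne').1
  unfold LA
  rw [card_LL (E_injective (abs_pos' hR.ne')) (fun s => by
    intro h; linarith), card_lights_sub hl]
  ring

theorem card_LB {R : ℍ} (hR : R.im < 1) (A : Finset ℝ) :
    #(LB R A) = #(lights (coords R A) (fun s => len R.im - s)) +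
      #(lights (coords R A) (fun s => -len R.im - s)) := by
  have hl := (len_spec R.im_pos hR.ne).1
  unfold LB
  rw [card_LL (E_injective (abs_pos' hR.ne)) (fun s => by
    intro h; linarith)]

theorem good_above {R : ℍ} (hR : 1 < R.im) {A : Finset ℝ} (hA : A.Nonempty) :
    Good R A (LA R A) := by
  have hl := (len_spec R.im_pos hR.ne').1
  have hne : (coords R A).Nonempty := hA.image _
  have h1 := lights_add_pos hne hl
  have h2 := card_LA hR A
  refine ⟨⟨#(lights (coords R A) (fun s => s + len R.im)), by omega⟩, by omega,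
    ⟨len R.im, hl, ?_⟩, ?_⟩
  · have h3 := out_shift_le (A := A) (x := R.re) (l := len R.im) (abs_pos' hR.ne')
    rw [show A.image (crd R.re |R.im - 1|) = coords R A from rfl, ← lights_add hl] at h3
    omega
  · intro K hK
    obtain ⟨s, hs, t, ht, ht', rfl⟩ := mem_LL.1 hK
    exact ⟨⟨_, _, rfl⟩, isHorocycle_hor _ _, (above_iff' hR s t).2 ht, light_spec hR.ne' hs ht'⟩

theorem good_below {R : ℍ} (hR : R.im < 1) {A : Finset ℝ} (hA : A.Nonempty) :
    Good R A (LB R A) := by
  have hl := (len_spec R.im_pos hR.ne).1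
  have hne : (coords R A).Nonempty := hA.image _
  have h1 := lights_reflect_two hne hl
  have h2 := card_LB hR A
  have h4 := lights_reflect_even (coords R A) (len R.im)
  refine ⟨by rwa [h2], by omega, ⟨2 * len R.im, by linarith, ?_⟩, ?_⟩
  · have h3 := out_shift_le (A := A) (x := R.re) (l := 2 * len R.im) (abs_pos' hR.ne)
    rw [show A.image (crd R.re |R.im - 1|) = coords R A from rfl] at h3
    have h5 := out_two_le (coords R A) (len R.im)
    omega
  · intro K hK
    obtain ⟨s, hs, t, ht, ht', rfl⟩ := mem_LL.1 hK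
    exact ⟨⟨_, _, rfl⟩, isHorocycle_hor _ _, (below_iff' hR s t).2 ht, light_spec hR.ne hs ht'⟩

end Pool.Agent.Hhelper97.Horo
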