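import Pool.Agent.Hhelper97.Horo.Geom
import Pool.Agent.Hhelper97.Horo.Block

/-!
Two shifts which nearly preserve the same large finite set have the same axis.
-/

set_option autoImplicit false

open Finset UpperHalfPlane

namespace Pool.Agent.Hhelper97.Horo

/-- the shift by `l` in the coordinate `E x κ` -/
noncomputable def shift (x κ l a : ℝ) : ℝ := E x κ (crd x κ a + l)

theorem crd_strictMono {x κ : ℝ} (hκ : 0 < κ) : StrictMono (crd x κ) := by
  intro a b h
  by_contra h1
  push Not at h1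
  have h2 := (E_strictMono (x := x) hκ).monotone h1
  rw [E_crd hκ, E_crd hκ] at h2
  linarith

theorem shift_strictMono {x κ l : ℝ} (hκ : 0 < κ) : StrictMono (shift x κ l) := by
  intro a b h
  unfold shift
  apply E_strictMono hκ
  have := crd_strictMono (x := x) hκ h
  linarith

theorem lt_shift {x κ l : ℝ} (hκ : 0 < κ) (hl : 0 < l) (a : ℝ) : a < shift x κ l a := by
  unfold shift
  have h1 : E x κ (crd x κ a) < E x κ (crd x κ a + l) := E_strictMono hκ (by linarith)
  rwa [E_crd hκ] at h1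

theorem shift_shift {x κ l l' a : ℝ} (hκ : 0 < κ) :
    shift x κ l (shift x κ l' a) = shift x κ (l' + l) a := by
  unfold shift
  rw [crd_E hκ]
  congr 1
  ring

theorem shift_E {x κ l s : ℝ} (hκ : 0 < κ) : shift x κ l (E x κ s) = E x κ (s + l) := by
  unfold shift
  rw [crd_E hκ]

theorem three {x κ Λ b c g : ℝ} (hκ : 0 < κ) (h1 : c = shift x κ Λ b) (h2 : g = shift x κ Λ c) :
    b + g - 2 * x = 2 * Real.cosh Λ * (c - x) ∧
    (b - x) ^ 2 + (c - x) ^ 2 - 2 * Real.cosh Λ * ((b - x) * (c - x)) =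
      κ ^ 2 * (Real.cosh Λ ^ 2 - 1) := by
  obtain ⟨s, hs⟩ : ∃ s, s = crd x κ b + Λ := ⟨_, rfl⟩
  have hb : b = E x κ (s - Λ) := by
    rw [hs, add_sub_cancel_right, E_crd hκ]
  have hc : c = E x κ s := by rw [h1, shift, hs]
  have hg : g = E x κ (s + Λ) := by rw [h2, hc, shift_E hκ]
  have h3 : Real.cosh s ^ 2 = Real.sinh s ^ 2 + 1 := Real.cosh_sq s
  have h4 : Real.cosh Λ ^ 2 = Real.sinh Λ ^ 2 + 1 := Real.cosh_sq Λ
  rw [hb, hc, hg]
  unfold E
  rw [Real.sinh_add, Real.sinh_sub]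
  constructor
  · ring
  · linear_combination κ ^ 2 * Real.sinh Λ ^ 2 * h3 - κ ^ 2 * (1 + Real.sinh s ^ 2) * h4

theorem rigid {A : Finset ℝ} {x κ l x' κ' l' : ℝ} (hκ : 0 < κ) (hκ' : 0 < κ') (hl : 0 < l)
    (hl' : 0 < l') {s t : ℕ} (hs : #(out A (shift x κ l)) ≤ s)
    (ht : #(out A (shift x' κ' l')) ≤ t) (hst : s + t ≤ 6) (hA : 261 ≤ #A) :
    x = x' ∧ κ = κ' ∧ ∃ d e : ℕ, 1 ≤ d ∧ d ≤ s ∧ 1 ≤ e ∧ e ≤ t ∧ (e : ℝ) * l = d * l' := by
  have hR : 1 + (2 * s + 2 * t + 1) * 20 ≤ #A := by omega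
  obtain ⟨f, d, e, hd1, hd2, he1, he2, hf, hf', hinj⟩ := block (shift_strictMono hκ)
    (shift_strictMono hκ') (lt_shift hκ hl) (lt_shift hκ' hl') hs ht hR (by norm_num)
  have it : ∀ j i : ℕ, i + j * d ≤ 20 → shift x κ (j * l) (f i) = f (i + j * d) := by
    intro j
    induction j with
    | zero =>
      intro i _
      simp [shift, E_crd hκ]
    | succ j ih =>
      intro i hi
      have h1 : (j + 1) * d = j * d + d := by ring
      rw [h1] at hi ⊢
      have h2 : ((j + 1 : ℕ) : ℝ) * l = (j : ℝ) * l + l := by push_cast; ring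
      rw [h2, ← shift_shift hκ, ih i (by omega), hf _ (by omega)]
      congr 1
      omega
  have it' : ∀ j i : ℕ, i + j * e ≤ 20 → shift x' κ' (j * l') (f i) = f (i + j * e) := by
    intro j
    induction j with
    | zero =>
      intro i _
      simp [shift, E_crd hκ']
    | succ j ih =>
      intro i hi
      have h1 : (j + 1) * e = j * e + e := by ring
      rw [h1] at hi ⊢
      have h2 : ((j + 1 : ℕ) : ℝ) * l' = (j : ℝ) * l' + l' := by push_cast; ring
      rw [h2, ← shift_shift hκ', ih i (by omega), hf' _ (by omega)]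
      congr 1
      omega
  have hL : e * d ≤ 9 := by
    have h1 : d + e ≤ 6 := by omega
    have h2 : d ≤ 6 := by omega
    have h3 : e ≤ 6 := by omega
    interval_cases d <;> interval_cases e <;> omega
  obtain ⟨L, hLdef⟩ : ∃ L, L = e * d := ⟨_, rfl⟩
  have hL1 : 1 ≤ L := by rw [hLdef]; exact Nat.one_le_iff_ne_zero.2 (by positivity)
  rw [← hLdef] at hL
  have p1 : ∀ i, i + L ≤ 20 → f (i + L) = shift x κ (e * l) (f i) := by
    intro i hi
    rw [it e i (by rw [← hLdef]; exact hi), hLdef]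
  have p2 : ∀ i, i + L ≤ 20 → f (i + L) = shift x' κ' (d * l') (f i) := by
    intro i hi
    have h1 : e * d = d * e := mul_comm _ _
    rw [it' d i (by rw [← h1, ← hLdef]; exact hi), hLdef, h1]
  have q1 : ∀ i, i + L + L ≤ 20 → _ := fun i hi =>
    three (b := f i) (c := f (i + L)) (g := f (i + L + L)) hκ (p1 i (by omega))
      (p1 (i + L) (by omega))
  have q2 : ∀ i, i + L + L ≤ 20 → _ := fun i hi =>
    three (b := f i) (c := f (i + L)) (g := f (i + L + L)) hκ' (p2 i (by omega))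
      (p2 (i + L) (by omega))
  obtain ⟨a0, c0⟩ := q1 0 (by omega)
  obtain ⟨a1, -⟩ := q1 1 (by omega)
  obtain ⟨b0, e0⟩ := q2 0 (by omega)
  obtain ⟨b1, -⟩ := q2 1 (by omega)
  have hne : f (0 + L) ≠ f (1 + L) := by
    intro h
    have := hinj (0 + L) (by omega) (1 + L) (by omega) h
    omega
  have hC : (Real.cosh (e * l) - Real.cosh (d * l')) * (f (0 + L) - f (1 + L)) = 0 := by
    linear_combination (-1 / 2) * a0 + (1 / 2) * a1 + (1 / 2) * b0 - (1 / 2) * b1
  have hC' : Real.cosh (e * l) = Real.cosh (d * l') := by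
    rcases mul_eq_zero.1 hC with h | h
    · linarith
    · exact absurd (sub_eq_zero.1 h) hne
  have hC1 : 1 < Real.cosh (e * l) := by
    rw [Real.one_lt_cosh]
    have : (0 : ℝ) < e := by exact_mod_cast (by omega : 0 < e)
    positivity
  have hx : x = x' := by
    have h1 : (Real.cosh (e * l) - 1) * (x - x') = 0 := by
      rw [← hC'] at b0
      linear_combination (1 / 2) * a0 - (1 / 2) * b0
    rcases mul_eq_zero.1 h1 with h | h
    · linarith
    · linarith
  refine ⟨hx, ?_, d, e, hd1, hd2, he1, he2, ?_⟩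
  swap
  · have k1 : (0 : ℝ) < e := by exact_mod_cast (by omega : 0 < e)
    have k2 : (0 : ℝ) < d := by exact_mod_cast (by omega : 0 < d)
    have k3 := Real.cosh_le_cosh.1 hC'.le
    have k4 := Real.cosh_le_cosh.1 hC'.ge
    rw [abs_of_pos (by positivity), abs_of_pos (by positivity)] at k3 k4
    exact le_antisymm k3 k4
  rw [← hC', ← hx] at e0
  have h1 : (Real.cosh (e * l) ^ 2 - 1) * (κ ^ 2 - κ' ^ 2) = 0 := by
    linear_combination e0 - c0
  have h2 : Real.cosh (e * l) ^ 2 - 1 ≠ 0 := by nlinarith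
  have h3 : κ ^ 2 = κ' ^ 2 := by
    rcases mul_eq_zero.1 h1 with h | h
    · exact absurd h h2
    · linarith
  exact (pow_left_inj₀ hκ.le hκ'.le (by norm_num)).1 h3

end Pool.Agent.Hhelper97.Horo
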