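import Pool.Agent.Hhelper97.Horo.Ident
import Pool.Agent.Hhelper97.Horo.Main

/-!
Uniqueness of the extremal sets.
-/

set_option autoImplicit false

open Finset UpperHalfPlane

namespace Pool.Agent.Hhelper97.Horo

theorem coe_golden (k : ℕ) :
    (golden k : Set ℍ) = {q₁, q₂} ∪ (fun i => pt (X i)) '' {i | i < k} := by
  classical
  ext z
  simp only [golden, mem_coe, mem_insert, mem_image, mem_range, Set.mem_union, Set.mem_insert_iff,
    Set.mem_singleton_iff, Set.mem_image, Set.mem_ofPred_eq]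
  tauto

theorem ident_pts {p q : ℍ} (hp : p.im < 1) (hq : 1 < q.im) (hκ : |p.im - 1| = |q.im - 1|)
    (hx : p.re = q.re) {A : Finset ℝ} (hA : 7 ≤ #A)
    (hU : #(lights (coords p A) (fun s => s + len q.im)) = 1)
    (hW : #(lights (coords p A) (fun s => len p.im - s)) +
      #(lights (coords p A) (fun s => -len p.im - s)) = 2)
    (hb : len q.im = 2 * len p.im) :
    ∃ x ε : ℝ, (ε = 1 ∨ ε = -1) ∧
      {p, q} ∪ pt '' (A : Set ℝ) = mv x ε '' (golden #A : Set ℍ) := by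
  classical
  obtain ⟨hc, hp1, hq1⟩ := golden_len hp hq hκ hb
  have ha := (len_spec p.im_pos hp.ne).1
  have hS : #(coords p A) = #A := card_coords hp.ne A
  rw [hb] at hU
  obtain ⟨ε, hε, h1⟩ := ident ha hc (by omega) hU hW
  refine ⟨p.re, ε, hε, ?_⟩
  have hk : |p.im - 1| = 4 / 5 := by
    rw [hp1, abs_of_neg (by norm_num)]; norm_num
  have hAeq : (A : Set ℝ) = (fun i : ℕ => p.re + ε * X i) '' {i | i < #A} := by
    have hEX : ∀ i : ℕ, E p.re |p.im - 1| (ε * gc (len p.im) i) = p.re + ε * X i := by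
      intro i
      unfold E
      rw [hk, X_eq ha hc]
      rcases hε with rfl | rfl
      · rw [one_mul, one_mul]
      · rw [neg_one_mul, Real.sinh_neg]; ring
    ext c
    rw [mem_coe, Set.mem_image]
    constructor
    · intro hcA
      have h2 : crd p.re |p.im - 1| c ∈ coords p A := mem_image_of_mem _ hcA
      rw [← h1, mem_image] at h2
      obtain ⟨i, hi, h3⟩ := h2
      rw [mem_range, hS] at hi
      refine ⟨i, hi, ?_⟩
      rw [← hEX, h3, E_crd (abs_pos' hp.ne)]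
    · rintro ⟨i, hi, rfl⟩
      rw [← hEX, E_mem hp.ne, ← h1, mem_image]
      exact ⟨i, by rw [mem_range, hS]; exact hi, rfl⟩
  have e1 : mv p.re ε q₁ = p := by
    apply ext'
    · simp [mv]
    · simp [mv, hp1]
  have e2 : mv p.re ε q₂ = q := by
    apply ext'
    · simp [mv, hx]
    · simp [mv, hq1]
  have e3 : pt '' (A : Set ℝ) = mv p.re ε '' ((fun i => pt (X i)) '' {i | i < #A}) := by
    rw [hAeq, Set.image_image, Set.image_image]
    apply Set.image_congr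
    intro i _
    apply ext'
    · simp [mv]
    · simp [mv]
  rw [coe_golden, Set.image_union, ← e3, Set.image_pair, e1, e2]

theorem two_off_eq {A : Finset ℝ} (hA : 261 ≤ #A) {p q : ℍ} (hp : p.im ≠ 1) (hq : q.im ≠ 1)
    (hpq : p ≠ q) {P : Finset ℍ} (hpP : p ∈ P) (hqP : q ∈ P) (hP : ∀ a ∈ A, pt a ∈ P)
    (hle : h P ≤ (#A).choose 2 + 6) :
    ∃ x ε : ℝ, (ε = 1 ∨ ε = -1) ∧
      {p, q} ∪ pt '' (A : Set ℝ) = mv x ε '' (golden #A : Set ℍ) := by
  classical
  have hAne : A.Nonempty := card_pos.1 (by omega)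
  obtain ⟨L, gL, hL1, hL2⟩ := exists_good hp hAne
  obtain ⟨L', gL', hL1', hL2'⟩ := exists_good hq hAne
  obtain ⟨k, hk⟩ := gL.1
  obtain ⟨k', hk'⟩ := gL'.1
  have fin : ∀ (M₀ : Finset (Set ℍ)),
      (∀ K ∈ M₀, IsHorocycle K ∧ p ∈ K ∧ q ∈ K ∧ ∀ c ∈ A, pt c ∉ K) →
      #(L ∪ L') + #M₀ ≤ 5 := by
    intro M₀ h0
    have := count_two (by omega) hp hq hpq (M₁ := L ∪ L') (M₀ := M₀) (A := A) (fun K hK => by
      rcases mem_union.1 hK with h2 | h2
      · obtain ⟨_, h3, h4, h5⟩ := gL.2.2.2 K h2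
        exact ⟨h3, Or.inl h4, h5⟩
      · obtain ⟨_, h3, h4, h5⟩ := gL'.2.2.2 K h2
        exact ⟨h3, Or.inr h4, h5⟩) h0 hpP hqP hP
    omega
  have h6 : #L + #L' ≤ 6 := by
    by_contra h6
    have h1 : #(L ∩ L') ≤ 2 := by
      apply circ_two hpq
      intro K hK
      rw [mem_inter] at hK
      obtain ⟨c1, _, c2, _⟩ := gL.2.2.2 K hK.1
      obtain ⟨_, _, c3, _⟩ := gL'.2.2.2 K hK.2
      exact ⟨c2, c3, c1⟩
    have h2 := card_union_add_card_inter L L'
    have h3 := fin ∅ (by simp)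
    rw [card_empty] at h3
    omega
  obtain ⟨l, hl, ho⟩ := gL.2.2.1
  obtain ⟨l', hl', ho'⟩ := gL'.2.2.1
  obtain ⟨hx, hκ, _⟩ := rigid (abs_pos' hp) (abs_pos' hq) hl hl' ho ho' h6 hA
  rcases lt_or_gt_of_ne hp with h1 | h1 <;> rcases lt_or_gt_of_ne hq with h2 | h2
  · exfalso
    apply hpq
    apply ext' hx
    rw [abs_of_neg (by linarith), abs_of_neg (by linarith)] at hκ
    linarith
  · rw [hL1 h1, hL2' h2] at h6 fin
    obtain ⟨f1, f2, f3⟩ := mixed_eq h1 h2 hκ hx hA h6 fin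
    exact ident_pts h1 h2 hκ hx (by omega) f1 f2 f3
  · rw [hL2 h1, hL1' h2] at h6 fin
    obtain ⟨f1, f2, f3⟩ := mixed_eq h2 h1 hκ.symm hx.symm hA (by omega) (fun M₀ h0 => by
      have := fin M₀ (fun K hK => by
        obtain ⟨k1, k2, k3, k4⟩ := h0 K hK
        exact ⟨k1, k3, k2, k4⟩)
      rwa [union_comm] at this)
    rw [Set.pair_comm]
    exact ident_pts h2 h1 hκ.symm hx.symm (by omega) f1 f2 f3
  · exfalso
    apply hpq
    apply ext' hx
    rw [abs_of_pos (by linarith), abs_of_pos (by linarith)] at hκ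
    linarith

theorem exists_isom' {H : Set ℍ} (hH : IsHorocycle H) : ∃ φ : ℍ → ℍ, Function.Bijective φ ∧
    Isometry φ ∧
    (∀ K, IsHorocycle K → IsHorocycle (φ ⁻¹' K)) ∧ ∀ z, z ∈ H ↔ φ z ∈ hline 1 := by
  rcases hH with ⟨c, hc, rfl⟩ | ⟨x, r, hr, rfl⟩
  · refine ⟨scale c hc, scale_bij c hc, scale_isometry c hc, scale_pre c hc, fun z => ?_⟩
    simp only [hline, Set.mem_ofPred_eq, scale, mkP_im]
    rw [div_eq_one_iff_eq hc.ne']
  · refine ⟨inv x r hr, inv_bij x r hr, inv_isometry x r hr, inv_pre x r hr, fun z => ?_⟩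
    have h1 := nm_pos x z
    have h3 : (z.re - x) ^ 2 + z.im ^ 2 = nm x z := rfl
    rw [mem_circ]
    simp only [hline, Set.mem_ofPred_eq, inv, mkP_im]
    rw [h3, div_eq_one_iff_eq h1.ne', eq_comm]

theorem unique {P : Finset ℍ} {n : ℕ} (hn : 263 ≤ n) (hP : #P = n) {H : Set ℍ}
    (hH : IsHorocycle H) (hc : n ≤ ((P : Set ℍ) ∩ H).ncard + 2)
    (hle : h P ≤ (n - 2).choose 2 + 6) :
    ∃ φ : ℍ ≃ᵢ ℍ, (P : Set ℍ) = φ '' (golden (n - 2) : Set ℍ) := by
  classical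
  obtain ⟨φ, hφ, hφi, hpre, hHφ⟩ := exists_isom' hH
  have hle' := (h_image_le hφ.surjective hpre P).trans hle
  have hQ : #(P.image φ) = n := by rw [card_image_of_injective _ hφ.injective, hP]
  set Q := P.image φ with hQdef
  set Q₁ := Q.filter (fun z => z.im = 1) with hQ₁
  have hcard : #Q₁ = ((P : Set ℍ) ∩ H).ncard := by
    have h1 : ((P : Set ℍ) ∩ H) = ((P.filter (fun z => z ∈ H) : Finset ℍ) : Set ℍ) := by
      ext z; simp
    rw [h1, Set.ncard_coe_finset,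
      ← card_image_of_injective (P.filter (fun z => z ∈ H)) hφ.injective]
    congr 1
    ext z
    rw [hQ₁, mem_filter, mem_image, mem_image]
    constructor
    · rintro ⟨⟨w, hw, rfl⟩, h2⟩
      exact ⟨w, mem_filter.2 ⟨hw, (hHφ w).2 h2⟩, rfl⟩
    · rintro ⟨w, hw, rfl⟩
      rw [mem_filter] at hw
      exact ⟨⟨w, hw.1, rfl⟩, (hHφ w).1 hw.2⟩
  rw [← hcard] at hc
  set A := Q₁.image (fun z : ℍ => z.re) with hAdef
  have hAcard : #A = #Q₁ := by
    rw [hAdef]
    apply card_image_of_injOn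
    intro z hz w hw hzw
    rw [mem_coe, hQ₁, mem_filter] at hz hw
    exact ext' hzw (hz.2.trans hw.2.symm)
  have hptA : A.image pt = Q₁ := by
    rw [hAdef, image_image]
    have : ∀ z ∈ Q₁, (pt ∘ fun z : ℍ => z.re) z = z := by
      intro z hz
      rw [hQ₁, mem_filter] at hz
      exact ext' rfl hz.2.symm
    ext w
    rw [mem_image]
    constructor
    · rintro ⟨z, hz, rfl⟩
      rw [this z hz]; exact hz
    · intro hw
      exact ⟨w, hw, this w hw⟩
  have hAP : ∀ a ∈ A, pt a ∈ Q := by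
    intro a ha
    have h1 : pt a ∈ A.image pt := mem_image_of_mem _ ha
    rw [hptA, hQ₁, mem_filter] at h1
    exact h1.1
  have hlen : #Q₁ ≤ n := by rw [← hQ]; exact card_filter_le _ _
  have h2 : #Q₁ = n - 2 := by
    by_contra h2
    have h3 : n - 1 ≤ #A := by omega
    have h4 := count_line (A := A) (by omega) hAP
    have h5 : (n - 1).choose 2 ≤ (#A).choose 2 := Nat.choose_le_choose 2 h3
    have h6 : (n - 1).choose 2 = (n - 2).choose 2 + (n - 2) := by
      obtain ⟨m, rfl⟩ : ∃ m, n = m + 3 := ⟨n - 3, by omega⟩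
      have : m + 3 - 1 = (m + 1) + 1 := by omega
      rw [this, Nat.choose_succ_succ' (m + 1) 1, Nat.choose_one_right]
      have : m + 3 - 2 = m + 1 := by omega
      rw [this]
      ring
    omega
  have h3 : #(Q.filter (fun z => ¬ z.im = 1)) = 2 := by
    have := card_filter_add_card_filter_not (s := Q) (fun z : ℍ => z.im = 1)
    rw [hQ, ← hQ₁] at this
    omega
  obtain ⟨p, q, hpq, hpq'⟩ := card_eq_two.1 h3
  have hp : p ∈ Q.filter (fun z => ¬ z.im = 1) := by rw [hpq']; simp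
  have hq : q ∈ Q.filter (fun z => ¬ z.im = 1) := by rw [hpq']; simp
  rw [mem_filter] at hp hq
  rw [← h2, ← hAcard] at hle'
  obtain ⟨x, ε, hε, hfin⟩ := two_off_eq (A := A) (by omega) hp.2 hq.2 hpq hp.1 hq.1 hAP hle'
  have hQeq : (Q : Set ℍ) = {p, q} ∪ pt '' (A : Set ℝ) := by
    have h5 : pt '' (A : Set ℝ) = (Q₁ : Set ℍ) :=
      (coe_image (s := A) (f := pt)).symm.trans (congrArg (fun F : Finset ℍ => (F : Set ℍ)) hptA)
    rw [h5]
    ext z
    have h6 : z ∈ Q.filter (fun z => ¬ z.im = 1) ↔ z = p ∨ z = q := by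
      rw [hpq', mem_insert, mem_singleton]
    rw [mem_filter] at h6
    rw [Set.mem_union, Set.mem_insert_iff, Set.mem_singleton_iff, ← h6, mem_coe, mem_coe, hQ₁,
      mem_filter]
    tauto
  rw [← hQeq, hAcard, h2] at hfin
  -- the isometry
  let Φ : ℍ ≃ᵢ ℍ := ⟨Equiv.ofBijective φ hφ, hφi⟩
  let Ψ : ℍ ≃ᵢ ℍ := ⟨Equiv.ofBijective (mv x ε) ⟨(mv_isometry x hε).injective, mv_surj x hε⟩,
    mv_isometry x hε⟩
  refine ⟨Ψ.trans Φ.symm, ?_⟩
  have h5 : φ '' (P : Set ℍ) = mv x ε '' (golden (n - 2) : Set ℍ) := by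
    rw [← hfin, hQdef, coe_image]
  have h6 : (P : Set ℍ) = Φ.symm '' (φ '' (P : Set ℍ)) := by
    ext z
    constructor
    · intro hz
      exact ⟨φ z, ⟨z, hz, rfl⟩, Φ.symm_apply_apply z⟩
    · rintro ⟨_, ⟨w, hw, rfl⟩, h7⟩
      have : Φ.symm (φ w) = w := Φ.symm_apply_apply w
      rw [← h7, this]
      exact hw
  rw [h6, h5]
  ext z
  constructor
  · rintro ⟨_, ⟨w, hw, rfl⟩, rfl⟩
    exact ⟨w, hw, rfl⟩
  · rintro ⟨w, hw, rfl⟩
    exact ⟨_, ⟨w, hw, rfl⟩, rfl⟩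

end Pool.Agent.Hhelper97.Horo
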